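import Mathlib
import Pool.Agent.KS6_22.SC.Base
set_option autoImplicit false
set_option linter.unusedSectionVars false
open scoped ENNReal InnerProductSpace Topology
open Module ContinuousLinearMap

namespace Pool.Agent.KS6_22.SC.Sch

universe u v
variable {H : Type u} [NormedAddCommGroup H] [InnerProductSpace ℂ H] [CompleteSpace H]
  {K : Type v} [NormedAddCommGroup K] [InnerProductSpace ℂ K] [CompleteSpace K]

theorem compact_adjoint {a : H →L[ℂ] K} (ha : IsCompactOperator a) :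
    IsCompactOperator (adjoint a) := by
  have h1 : IsCompactOperator (a ∘L adjoint a) := ha.comp_clm (adjoint a)
  have h2 := (isCompactOperator_iff_isCompact_closure_image_ball
    ((a ∘L adjoint a : K →L[ℂ] K) : K →ₗ[ℂ] K) one_pos).1 h1
  have h3 : TotallyBounded ((a ∘L adjoint a : K →L[ℂ] K) '' Metric.ball 0 1) :=
    h2.totallyBounded.subset subset_closure
  refine (isCompactOperator_iff_isCompact_closure_image_ball
    ((adjoint a : K →L[ℂ] H) : K →ₗ[ℂ] H) one_pos).2 ?_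
  rw [isCompact_iff_totallyBounded_isComplete]
  refine ⟨?_, isClosed_closure.isComplete⟩
  apply TotallyBounded.closure
  rw [Metric.totallyBounded_iff]
  intro ε hε
  rw [totallyBounded_iff_subset] at h3
  obtain ⟨t, hts, htf, hcov⟩ := h3 {q | dist q.1 q.2 < ε ^ 2 / 2}
    (Metric.dist_mem_uniformity (by positivity))
  choose g hg hg2 using hts
  have : Fintype t := htf.fintype
  refine ⟨Set.range (fun y : t => (adjoint a) (g y.2)), Set.finite_range _, ?_⟩
  rintro _ ⟨x, hx, rfl⟩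
  have hx2 := hcov ⟨x, hx, rfl⟩
  simp only [Set.mem_iUnion] at hx2
  obtain ⟨y, hy, hxy⟩ := hx2
  simp only [Set.mem_iUnion]
  refine ⟨_, ⟨⟨y, hy⟩, rfl⟩, ?_⟩
  have hxy' : dist ((a ∘L adjoint a) x) y < ε ^ 2 / 2 := hxy
  rw [← hg2 hy, dist_eq_norm, ← map_sub] at hxy'
  change dist ((adjoint a) x) ((adjoint a) (g hy)) < ε
  rw [dist_eq_norm, ← map_sub]
  set z := x - g hy with hz
  have hz1 : ‖z‖ < 2 := by
    have e1 : ‖x‖ < 1 := by simpa using hx
    have e2 : ‖g hy‖ < 1 := by simpa using hg hy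
    calc ‖z‖ ≤ ‖x‖ + ‖g hy‖ := norm_sub_le _ _
      _ < 2 := by linarith
  have h4 : ‖(adjoint a) z‖ ^ 2 ≤ ‖(a ∘L adjoint a) z‖ * ‖z‖ := by
    have e3 : ⟪(a ∘L adjoint a) z, z⟫_ℂ = (((‖(adjoint a) z‖ ^ 2 : ℝ)) : ℂ) := by
      rw [ContinuousLinearMap.comp_apply, ← adjoint_inner_right, inner_self_eq_norm_sq_to_K]
      push_cast
      rfl
    have e4 := norm_inner_le_norm (𝕜 := ℂ) ((a ∘L adjoint a) z) z
    rw [e3, Complex.norm_real, Real.norm_of_nonneg (by positivity)] at e4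
    exact e4
  have h5 : ‖(adjoint a) z‖ ^ 2 < ε ^ 2 := by
    have : ‖(a ∘L adjoint a) z‖ * ‖z‖ < ε ^ 2 := by
      have h6 : ‖(a ∘L adjoint a) z‖ * ‖z‖ ≤ ‖(a ∘L adjoint a) z‖ * 2 := by gcongr
      linarith
    linarith
  exact lt_of_pow_lt_pow_left₀ 2 hε.le h5

theorem clm_ext_basis {ι : Type*} (b : HilbertBasis ι ℂ H) {S T : H →L[ℂ] K}
    (h : ∀ i, S (b i) = T (b i)) : S = T := by
  ext x
  have h1 := (b.hasSum_repr x).mapL S
  have h2 := (b.hasSum_repr x).mapL T
  simp only [map_smul, h] at h1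
  simp only [map_smul] at h2
  exact h1.unique h2

end Pool.Agent.KS6_22.SC.Sch
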