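import Pool.Agent.KS6_22.SC.Blow

set_option autoImplicit false
set_option linter.unusedSectionVars false
open scoped ENNReal InnerProductSpace Topology Real NNReal
open Module ContinuousLinearMap Filter MeasureTheory
open Pool.Agent.KS6_22.SC.Sch

namespace Pool.Agent.KS6_22.SC.SL

/-- The disc algebra: the functions on the circle that extend to a continuous function on the
closed disc which is holomorphic in the open disc. -/
def DiscAlgebra : Set (Circle → ℂ) :=
  {f | ∃ g : ℂ → ℂ, ContinuousOn g (Metric.closedBall 0 1) ∧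
    DifferentiableOn ℂ g (Metric.ball 0 1) ∧ ∀ z : Circle, f z = g z}

theorem co_neg {f : Circle → ℂ} {g : ℂ → ℂ} (hg1 : ContinuousOn g (Metric.closedBall 0 1))
    (hg2 : DifferentiableOn ℂ g (Metric.ball 0 1)) (hg3 : ∀ z : Circle, f z = g z) (m : ℕ) :
    co f (-((m : ℤ) + 1)) = 0 := by
  have h1 := Complex.circleIntegral_eq_zero_of_differentiable_on_off_countable
    (f := fun z => z ^ m * g z) (c := 0) (R := 1) zero_le_one
    (Set.countable_empty) ((continuous_pow m).continuousOn.mul hg1)
    (fun z hz => ((differentiable_pow m).differentiableAt.mul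
      (hg2.differentiableAt (Metric.isOpen_ball.mem_nhds hz.1))))
  rw [circleIntegral] at h1
  have h2 : ∫ θ in (0 : ℝ)..(2 * π), deriv (circleMap 0 1) θ •
      ((circleMap 0 1 θ) ^ m * g (circleMap 0 1 θ))
      = ∫ θ in (0 : ℝ)..(2 * π), Complex.I *
        (f (Circle.exp θ) * Complex.exp (-((((-((m : ℤ) + 1)) : ℤ) : ℂ) * θ * Complex.I))) := by
    refine intervalIntegral.integral_congr fun θ _ => ?_
    rw [deriv_circleMap, hg3, Circle.coe_exp, smul_eq_mul]
    simp only [circleMap, Complex.ofReal_one, one_mul, zero_add]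
    have e : Complex.exp (-((((-((m : ℤ) + 1)) : ℤ) : ℂ) * θ * Complex.I)) =
        Complex.exp (θ * Complex.I) * Complex.exp (θ * Complex.I) ^ m := by
      rw [← Complex.exp_nat_mul, ← Complex.exp_add]
      congr 1
      push_cast
      ring
    rw [e]
    ring
  rw [h2, intervalIntegral.integral_const_mul] at h1
  unfold co
  rcases mul_eq_zero.1 h1 with h | h
  · exact absurd h Complex.I_ne_zero
  · rw [h, mul_zero]

theorem hasSum_nat_of_neg {f : Circle → ℂ} (hneg : ∀ m : ℕ, co f (-((m : ℤ) + 1)) = 0) {z s : ℂ}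
    (h : HasSum (fun n : ℕ => co f n * z ^ n) s) : HasSum (fun n : ℤ => co f n * pz z n) s := by
  have h2 : HasSum (fun n : ℕ => co f (-((n : ℤ) + 1)) * pz z (-((n : ℤ) + 1))) 0 := by
    simp only [hneg, zero_mul]
    exact hasSum_zero
  have h1 : HasSum (fun n : ℕ => co f (n : ℤ) * pz z (n : ℤ)) s := by
    have e : (fun n : ℕ => co f (n : ℤ) * pz z (n : ℤ)) = fun n : ℕ => co f n * z ^ n := by
      funext n
      rw [pz, if_pos (Int.natCast_nonneg n), Int.toNat_natCast]
    rw [e]
    exact h
  have := HasSum.of_nat_of_neg_add_one (f := fun n : ℤ => co f n * pz z n) h1 h2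
  rwa [add_zero] at this

theorem hx_eq {f : Circle → ℂ} {g : ℂ → ℂ}
    (hg1 : ContinuousOn g (Metric.closedBall 0 1))
    (hg2 : DifferentiableOn ℂ g (Metric.ball 0 1)) (hg3 : ∀ z : Circle, f z = g z) {w : ℂ}
    (hw : ‖w‖ < 1) : hx f w = g w := by
  have hd : DiffContOnCl ℂ g (Metric.ball 0 1) :=
    ⟨hg2, by rwa [closure_ball _ one_ne_zero]⟩
  have h1 := (DiffContOnCl.hasFPowerSeriesOnBall (R := 1) hd one_pos).hasSum (y := w) (by
    rw [Metric.mem_eball, edist_zero_right]
    rw [← ofReal_norm, ENNReal.ofReal_lt_iff_lt_toReal (norm_nonneg _) (by simp)]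
    simpa using hw)
  rw [zero_add] at h1
  have h2 : ∀ n : ℕ, (cauchyPowerSeries g 0 ((1 : ℝ≥0) : ℝ) n fun _ => w) = co f n * w ^ n := by
    intro n
    rw [cauchyPowerSeries_apply, circleIntegral]
    have h3 : ∫ θ in (0 : ℝ)..(2 * π), deriv (circleMap 0 ((1 : ℝ≥0) : ℝ)) θ •
        ((w / (circleMap 0 ((1 : ℝ≥0) : ℝ) θ - 0)) ^ n •
          (circleMap 0 ((1 : ℝ≥0) : ℝ) θ - 0)⁻¹ • g (circleMap 0 ((1 : ℝ≥0) : ℝ) θ))
        = ∫ θ in (0 : ℝ)..(2 * π), (Complex.I * w ^ n) *
          (f (Circle.exp θ) * Complex.exp (-(((n : ℤ) : ℂ) * θ * Complex.I))) := by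
      refine intervalIntegral.integral_congr fun θ _ => ?_
      rw [hg3, Circle.coe_exp]
      simp only [deriv_circleMap, circleMap, NNReal.coe_one, Complex.ofReal_one, one_mul, zero_add,
        sub_zero, smul_eq_mul]
      have e : Complex.exp (-(((n : ℤ) : ℂ) * θ * Complex.I)) =
          (Complex.exp (θ * Complex.I) ^ n)⁻¹ := by
        rw [← Complex.exp_nat_mul, ← Complex.exp_neg]
        congr 1
        push_cast
        ring
      rw [e, div_pow]
      have hne : Complex.exp (θ * Complex.I) ≠ 0 := Complex.exp_ne_zero _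
      field_simp
    rw [h3, intervalIntegral.integral_const_mul, smul_eq_mul]
    unfold co
    have hpi : (π : ℂ) ≠ 0 := by exact_mod_cast Real.pi_ne_zero
    have hI := Complex.I_ne_zero
    field_simp
  simp only [h2] at h1
  exact (hasSum_nat_of_neg (co_neg hg1 hg2 hg3) h1).tsum_eq

theorem continuousOn_hx {f : Circle → ℂ} {K : ℝ≥0} (hf : LipschitzWith K f) :
    ContinuousOn (hx f) (Metric.closedBall 0 1) := by
  refine continuousOn_tsum (u := fun n : ℤ => ‖co f n‖) (fun n => ?_) (summable_co hf) ?_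
  · refine continuousOn_const.mul ?_
    unfold pz
    split_ifs
    · exact (continuous_pow _).continuousOn
    · exact (Complex.continuous_conj.pow _).continuousOn
  · intro n z hz
    rw [Metric.mem_closedBall, dist_zero_right] at hz
    rw [norm_mul]
    exact mul_le_of_le_one_right (norm_nonneg _) (norm_pz_le hz n)

/-- a bound for the derivative gives a Lipschitz bound on the closed disc -/
theorem lip_of_deriv {g : ℂ → ℂ} (hg1 : ContinuousOn g (Metric.closedBall 0 1))
    (hg2 : DifferentiableOn ℂ g (Metric.ball 0 1)) {C : ℝ} (hC : 0 ≤ C)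
    (h : ∀ z ∈ Metric.ball (0 : ℂ) 1, ‖deriv g z‖ ≤ C) :
    ∀ z w : ℂ, ‖z‖ ≤ 1 → ‖w‖ ≤ 1 → ‖g z - g w‖ ≤ C * ‖z - w‖ := by
  have h1 : LipschitzOnWith C.toNNReal g (Metric.ball 0 1) := by
    refine LipschitzOnWith.of_dist_le_mul fun x hx y hy => ?_
    rw [dist_eq_norm, dist_eq_norm, Real.coe_toNNReal _ hC]
    exact (convex_ball (0 : ℂ) 1).norm_image_sub_le_of_norm_deriv_le
      (fun z hz => hg2.differentiableAt (Metric.isOpen_ball.mem_nhds hz)) h hy hx
  have h2 : LipschitzOnWith C.toNNReal g (closure (Metric.ball 0 1)) :=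
    h1.closure (by rwa [closure_ball _ one_ne_zero])
  rw [closure_ball _ one_ne_zero] at h2
  intro z w hz hw
  have := h2.dist_le_mul z (by simpa using hz) w (by simpa using hw)
  rwa [dist_eq_norm, dist_eq_norm, Real.coe_toNNReal _ hC] at this

/-- the harmonic extension of a Lipschitz function of the disc algebra is Lipschitz -/
theorem lipDisc_of_mem {f : Circle → ℂ} {K : ℝ≥0} (hf : LipschitzWith K f)
    (hA : f ∈ DiscAlgebra) : LipDisc (hx f) := by
  obtain ⟨g, hg1, hg2, hg3⟩ := hA
  -- `hx f = g` on the closed disc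
  have heq : Set.EqOn (hx f) g (Metric.closedBall 0 1) := by
    refine Set.EqOn.of_subset_closure (s := Metric.ball 0 1) ?_ (continuousOn_hx hf) hg1
      Metric.ball_subset_closedBall (closure_ball (0 : ℂ) one_ne_zero).ge
    intro z hz
    rw [Metric.mem_ball, dist_zero_right] at hz
    exact hx_eq hg1 hg2 hg3 hz
  -- rotations
  have hrot : ∀ v : Circle, ∀ z : ℂ, ‖z‖ ≤ 1 → ‖g (v * z) - g z‖ ≤ K * ‖(v : ℂ) - 1‖ := by
    intro v z hz
    have hmap : Set.MapsTo (fun z : ℂ => (v : ℂ) * z) (Metric.ball 0 1) (Metric.ball 0 1) := by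
      intro x hx
      have : ‖(v : ℂ)‖ = 1 := Circle.norm_coe v
      rw [Metric.mem_ball, dist_zero_right] at hx ⊢
      rw [norm_mul, this, one_mul]
      exact hx
    have hmap' : Set.MapsTo (fun z : ℂ => (v : ℂ) * z) (Metric.closedBall 0 1)
        (Metric.closedBall 0 1) := by
      intro x hx
      have : ‖(v : ℂ)‖ = 1 := Circle.norm_coe v
      rw [Metric.mem_closedBall, dist_zero_right] at hx ⊢
      rw [norm_mul, this, one_mul]
      exact hx
    have hd : DiffContOnCl ℂ (fun z => g (v * z) - g z) (Metric.ball 0 1) := by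
      refine ⟨?_, ?_⟩
      · exact (hg2.comp (by fun_prop) hmap).sub hg2
      · rw [closure_ball _ one_ne_zero]
        exact (hg1.comp (by fun_prop) hmap').sub hg1
    have := Complex.norm_le_of_forall_mem_frontier_norm_le Metric.isBounded_ball hd
      (C := K * ‖(v : ℂ) - 1‖) (fun w hw => by
        rw [frontier_ball _ one_ne_zero, mem_sphere_zero_iff_norm] at hw
        let w' : Circle := ⟨w, by simpa [Submonoid.unitSphere] using hw⟩
        have e1 : g w = f w' := (hg3 w').symm
        have e2 : g (v * w) = f (v * w') := (hg3 (v * w')).symm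
        have h1 := hf.dist_le_mul (v * w') w'
        rw [dist_eq_norm] at h1
        change ‖g (v * w) - g w‖ ≤ _
        rw [e1, e2]
        refine h1.trans ?_
        have h2 : dist (v * w') w' = ‖(v : ℂ) - 1‖ := by
          change dist (((v * w' : Circle)) : ℂ) (w' : ℂ) = _
          rw [dist_eq_norm]
          have : ((v * w' : Circle) : ℂ) - (w' : ℂ) = ((v : ℂ) - 1) * w := by
            rw [Circle.coe_mul]
            change (v : ℂ) * w - w = _
            ring
          rw [this, norm_mul, hw, mul_one]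
        rw [h2]) (z := z) (by rw [closure_ball _ one_ne_zero]; simpa using hz)
    exact this
  -- derivative
  have hder : ∀ z : ℂ, ‖z‖ < 1 → ‖z‖ * ‖deriv g z‖ ≤ K := by
    intro z hz
    have hdz : HasDerivAt g (deriv g z) z :=
      (hg2.differentiableAt (Metric.isOpen_ball.mem_nhds (by simpa using hz))).hasDerivAt
    have hc : HasDerivAt (fun s : ℝ => Complex.exp (s * Complex.I) * z) (Complex.I * z) 0 := by
      have h1 : HasDerivAt (fun s : ℝ => (s : ℂ) * Complex.I) (1 * Complex.I) 0 :=
        (Complex.ofRealCLM.hasDerivAt (x := (0 : ℝ))).mul_const _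
      have h2 := (h1.cexp).mul_const z
      simpa using h2
    have hcomp : HasDerivAt (fun s : ℝ => g (Complex.exp (s * Complex.I) * z))
        (deriv g z * (Complex.I * z)) 0 := by
      have h3 : HasDerivAt g (deriv g z) (Complex.exp (((0 : ℝ) : ℂ) * Complex.I) * z) := by
        simpa using hdz
      exact HasDerivAt.comp (𝕜' := ℂ) (0 : ℝ) h3 hc
    have h4 := hcomp.le_of_lip' (C := K) K.2 (Eventually.of_forall fun s => by
      have h5 := hrot (Circle.exp s) z hz.le
      rw [Circle.coe_exp] at h5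
      simp only [Complex.ofReal_zero, zero_mul, Complex.exp_zero, one_mul, sub_zero]
      refine h5.trans ?_
      gcongr
      have := Real.norm_exp_I_mul_ofReal_sub_one_le (x := s)
      rwa [mul_comm Complex.I] at this)
    rw [norm_mul, norm_mul, Complex.norm_I, one_mul] at h4
    linarith
  have hd2 : DifferentiableOn ℂ (deriv g) (Metric.ball 0 1) := hg2.deriv Metric.isOpen_ball
  have hbd : ∀ z ∈ Metric.ball (0 : ℂ) 1, ‖deriv g z‖ ≤ K := by
    intro z hz
    rw [Metric.mem_ball, dist_zero_right] at hz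
    by_contra hcon
    push Not at hcon
    have hpos : 0 < ‖deriv g z‖ := lt_of_le_of_lt K.2 hcon
    have hq : (K : ℝ) / ‖deriv g z‖ < 1 := by rw [div_lt_one hpos]; exact hcon
    obtain ⟨r, hr1, hr2⟩ := exists_between (max_lt hz hq)
    have hr3 : ‖z‖ < r := (le_max_left _ _).trans_lt hr1
    have hr4 : (K : ℝ) / ‖deriv g z‖ < r := (le_max_right _ _).trans_lt hr1
    have hr0 : 0 < r := (norm_nonneg z).trans_lt hr3
    have hsub : Metric.closedBall (0 : ℂ) r ⊆ Metric.ball 0 1 :=
      Metric.closedBall_subset_ball hr2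
    have hdc : DiffContOnCl ℂ (deriv g) (Metric.ball 0 r) := by
      refine ⟨hd2.mono (Metric.ball_subset_closedBall.trans hsub), ?_⟩
      rw [closure_ball _ hr0.ne']
      exact hd2.continuousOn.mono hsub
    have h6 := Complex.norm_le_of_forall_mem_frontier_norm_le Metric.isBounded_ball hdc
      (C := K / r) (fun w hw => by
        rw [frontier_ball _ hr0.ne', mem_sphere_zero_iff_norm] at hw
        have := hder w (by rw [hw]; exact hr2)
        rw [hw] at this
        rw [le_div_iff₀ hr0]
        linarith) (z := z) (by rw [closure_ball _ hr0.ne']; simpa using hr3.le)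
    rw [le_div_iff₀ hr0] at h6
    rw [div_lt_iff₀ hpos] at hr4
    linarith
  refine ⟨K, fun z w hz hw => ?_⟩
  rw [heq (by simpa using hz), heq (by simpa using hw)]
  exact lip_of_deriv hg1 hg2 K.2 hbd z w hz hw

end Pool.Agent.KS6_22.SC.SL
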