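import Pool.Agent.KS6_22.SC.Diag

set_option autoImplicit false
set_option linter.unusedSectionVars false
open scoped ENNReal InnerProductSpace Topology Real NNReal
open Module ContinuousLinearMap Filter MeasureTheory
open Pool.Agent.KS6_22.SC.Sch

namespace Pool.Agent.KS6_22.SC.SL

universe u
variable {H : Type u} [NormedAddCommGroup H] [InnerProductSpace ℂ H] [CompleteSpace H]

/-- the function is Lipschitz on the closed unit disc -/
def LipDisc (u : ℂ → ℂ) : Prop :=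
  ∃ C : ℝ, ∀ z w : ℂ, ‖z‖ ≤ 1 → ‖w‖ ≤ 1 → ‖u z - u w‖ ≤ C * ‖z - w‖

/-- the numbers of the construction -/
theorem numbers {p : ℝ} (hp : 1 ≤ p) {f : Circle → ℂ} {K : ℝ≥0} (hf : LipschitzWith K f)
    (hnot : ¬ LipDisc (hx f)) (j : ℕ) :
    ∃ (z w : ℂ) (N : ℕ), ‖z‖ ≤ 1 ∧ ‖w‖ ≤ 1 ∧ (N : ℝ) * ‖z - w‖ ^ p ≤ (1 / 2) ^ j ∧
      1 ≤ (N : ℝ) * ‖hx f z - hx f w‖ ^ p := by
  set M := ∑' n : ℤ, ‖co f n‖ with hM
  have hM0 : 0 ≤ M := tsum_nonneg fun _ => norm_nonneg _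
  set C : ℝ := 2 ^ (j + 1) * (1 + 2 * M) with hC
  have hC1 : (2 : ℝ) ^ (j + 1) ≤ C := by
    rw [hC]
    exact le_mul_of_one_le_right (by positivity) (by linarith)
  have hCpos : 0 < C := lt_of_lt_of_le (by positivity) hC1
  obtain ⟨z, w, hz, hw, hzw⟩ : ∃ z w : ℂ, ‖z‖ ≤ 1 ∧ ‖w‖ ≤ 1 ∧
      C * ‖z - w‖ < ‖hx f z - hx f w‖ := by
    by_contra hcon
    push Not at hcon
    exact hnot ⟨C, fun z w hz hw => hcon z w hz hw⟩
  have hδ : 0 < ‖z - w‖ := by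
    rw [norm_pos_iff, sub_ne_zero]
    rintro rfl
    simp at hzw
  set δ := ‖z - w‖ with hδd
  set g := ‖hx f z - hx f w‖ with hg
  have hg0 : 0 < g := lt_of_le_of_lt (by positivity) hzw
  have hgM : g ≤ 2 * M := by
    refine (norm_sub_le _ _).trans ?_
    have := norm_hx_le hf hz
    have := norm_hx_le hf hw
    linarith
  have hp0 : 0 < p := by linarith
  have hgp : 0 < g ^ p := Real.rpow_pos_of_pos hg0 p
  have hδp : 0 < δ ^ p := Real.rpow_pos_of_pos hδ p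
  -- `δ ≤ 2 ^ -(j+1)`
  have hδs : δ ≤ (1 / 2) ^ (j + 1) := by
    have h1 : C * δ ≤ 1 + 2 * M := by linarith
    have h2 : (2 : ℝ) ^ (j + 1) * δ ≤ 1 := by
      have h3 : (2 : ℝ) ^ (j + 1) * δ * (1 + 2 * M) ≤ 1 * (1 + 2 * M) := by
        rw [one_mul]
        calc (2 : ℝ) ^ (j + 1) * δ * (1 + 2 * M) = C * δ := by rw [hC]; ring
          _ ≤ _ := h1
      exact le_of_mul_le_mul_right h3 (by linarith)
    rw [one_div, inv_pow, ← one_div, le_div_iff₀ (by positivity)]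
    linarith
  have hpow1 : ((1 : ℝ) / 2) ^ (j + 1) ≤ 1 := pow_le_one₀ (by norm_num) (by norm_num)
  have hsmall : ∀ x : ℝ, 0 < x → x ≤ (1 / 2) ^ (j + 1) → x ^ p ≤ (1 / 2) ^ (j + 1) := by
    intro x hx hx1
    have h1 := Real.rpow_le_rpow_of_exponent_ge hx (hx1.trans hpow1) hp
    rw [Real.rpow_one] at h1
    exact h1.trans hx1
  refine ⟨z, w, ⌈(g ^ p)⁻¹⌉₊, hz, hw, ?_, ?_⟩
  · have h1 : (⌈(g ^ p)⁻¹⌉₊ : ℝ) ≤ (g ^ p)⁻¹ + 1 := (Nat.ceil_lt_add_one (by positivity)).le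
    have h2 : (g ^ p)⁻¹ * δ ^ p ≤ (1 / 2) ^ (j + 1) := by
      have h3 : (g ^ p)⁻¹ * δ ^ p = (δ / g) ^ p := by
        rw [Real.div_rpow hδ.le hg0.le]
        field_simp
      rw [h3]
      refine hsmall _ (div_pos hδ hg0) ?_
      rw [div_le_iff₀ hg0]
      have h4 : (1 / 2 : ℝ) ^ (j + 1) * C ≥ 1 := by
        calc (1 / 2 : ℝ) ^ (j + 1) * C ≥ (1 / 2 : ℝ) ^ (j + 1) * 2 ^ (j + 1) := by gcongr
          _ = 1 := by rw [← mul_pow]; norm_num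
      have h5 : (1 / 2 : ℝ) ^ (j + 1) * (C * δ) ≤ (1 / 2) ^ (j + 1) * g := by gcongr
      nlinarith
    have h3 : δ ^ p ≤ (1 / 2) ^ (j + 1) := hsmall δ hδ hδs
    calc (⌈(g ^ p)⁻¹⌉₊ : ℝ) * δ ^ p ≤ ((g ^ p)⁻¹ + 1) * δ ^ p := by gcongr
      _ = (g ^ p)⁻¹ * δ ^ p + δ ^ p := by ring
      _ ≤ (1 / 2) ^ (j + 1) + (1 / 2) ^ (j + 1) := add_le_add h2 h3
      _ = (1 / 2) ^ j := by rw [pow_succ]; ring
  · have h1 : (g ^ p)⁻¹ ≤ (⌈(g ^ p)⁻¹⌉₊ : ℝ) := Nat.le_ceil _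
    calc (1 : ℝ) = (g ^ p)⁻¹ * g ^ p := by rw [inv_mul_cancel₀ hgp.ne']
      _ ≤ _ := by gcongr

/-- support of the `n`-th difference -/
noncomputable def Sy {ι : Type*} (N : ℕ → ℕ) (e : (Σ _ : ℕ, ℕ) ↪ ι) (n : ℕ) : Finset ι :=
  ((Finset.range n).sigma (fun j => Finset.range (N j))).map e

theorem sum_Sy {ι : Type*} (p : ℝ) (N : ℕ → ℕ) (e : (Σ _ : ℕ, ℕ) ↪ ι) (n : ℕ) (G : ι → ℂ)
    (g : ℕ → ℂ) (hG : ∀ j < n, ∀ i < N j, G (e ⟨j, i⟩) = g j) :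
    ∑ k ∈ Sy N e n, ‖G k‖ₑ ^ p = ∑ j ∈ Finset.range n, (N j : ℝ≥0∞) * ‖g j‖ₑ ^ p := by
  unfold Sy
  rw [Finset.sum_map, Finset.sum_sigma]
  refine Finset.sum_congr rfl fun j hj => ?_
  have : ∀ i ∈ Finset.range (N j), ‖G (e ⟨j, i⟩)‖ₑ ^ p = ‖g j‖ₑ ^ p := by
    intro i hi
    rw [hG j (Finset.mem_range.1 hj) i (Finset.mem_range.1 hi)]
  rw [Finset.sum_congr rfl this, Finset.sum_const, Finset.card_range, nsmul_eq_mul]

theorem term_eq (p : ℝ) (hp : 0 < p) (N : ℕ) (g : ℂ) :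
    (N : ℝ≥0∞) * ‖g‖ₑ ^ p = ENNReal.ofReal ((N : ℝ) * ‖g‖ ^ p) := by
  rw [← ofReal_norm, ENNReal.ofReal_rpow_of_nonneg (norm_nonneg _) hp.le,
    ENNReal.ofReal_mul (Nat.cast_nonneg _), ENNReal.ofReal_natCast]

/-- the blow up for every function with a harmonic extension that is not Lipschitz -/
theorem blowup (hH : ¬ FiniteDimensional ℂ H) {p : ℝ} (hp : 1 ≤ p) {f : Circle → ℂ} {K : ℝ≥0}
    (hf : LipschitzWith K f) (hnot : ¬ LipDisc (hx f)) :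
    ∃ (ι : Type u) (b : HilbertBasis ι ℂ H) (T₁ : H →L[ℂ] H) (T₀ : ℕ → H →L[ℂ] H)
      (t₁ : ι → ℂ) (t₀ : ℕ → ι → ℂ),
      Dg b T₁ t₁ ∧ (∀ n, Dg b (T₀ n) (t₀ n)) ∧ ‖T₁‖ ≤ 1 ∧ (∀ n, ‖T₀ n‖ = 1) ∧
      (∀ n, sN p (T₁ - T₀ n) ≤ 2) ∧
      (∀ n, sN p (fc f T₁ - fc f (T₀ n)) ≠ ∞) ∧
      Monotone (fun n => sN p (fc f T₁ - fc f (T₀ n))) ∧
      Tendsto (fun n => sN p (fc f T₁ - fc f (T₀ n))) atTop (𝓝 ∞) := by
  classical
  have hp0 : 0 < p := by linarith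
  choose z w N hz hw hδ hg using numbers hp hf hnot
  obtain ⟨ι, b, -⟩ := exists_hilbertBasis ℂ H
  have hinf : Infinite ι := by
    by_contra hfin
    rw [not_infinite_iff_finite] at hfin
    have : Fintype ι := Fintype.ofFinite ι
    exact hH (Module.Finite.of_basis b.toOrthonormalBasis.toBasis)
  let e : (Σ _ : ℕ, ℕ) ↪ ι :=
    (Denumerable.eqv (Σ _ : ℕ, ℕ)).toEmbedding.trans (Infinite.natEmbedding ι)
  let a₁ : (Σ _ : ℕ, ℕ) → ℂ := fun q => if q.2 < N q.1 then z q.1 else 1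
  let a₀ : ℕ → (Σ _ : ℕ, ℕ) → ℂ := fun n q =>
    if q.2 < N q.1 then (if q.1 < n then w q.1 else z q.1) else 1
  let t₁ : ι → ℂ := Function.extend e a₁ 1
  let t₀ : ℕ → ι → ℂ := fun n => Function.extend e (a₀ n) 1
  have ht₁e : ∀ q, t₁ (e q) = a₁ q := fun q => e.injective.extend_apply _ _ _
  have ht₀e : ∀ n q, t₀ n (e q) = a₀ n q := fun n q => e.injective.extend_apply _ _ _
  have hoff : ∀ k, (¬ ∃ q, e q = k) → t₁ k = 1 ∧ ∀ n, t₀ n k = 1 := by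
    intro k hk
    exact ⟨Function.extend_apply' _ _ _ hk, fun n => Function.extend_apply' _ _ _ hk⟩
  have ht₁ : ∀ k, ‖t₁ k‖ ≤ 1 := by
    intro k
    by_cases hk : ∃ q, e q = k
    · obtain ⟨q, rfl⟩ := hk
      rw [ht₁e]
      simp only [a₁]
      split_ifs
      · exact hz _
      · simp
    · rw [(hoff k hk).1]; simp
  have ht₀ : ∀ n k, ‖t₀ n k‖ ≤ 1 := by
    intro n k
    by_cases hk : ∃ q, e q = k
    · obtain ⟨q, rfl⟩ := hk
      rw [ht₀e]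
      simp only [a₀]
      split_ifs
      · exact hw _
      · exact hz _
      · simp
    · rw [(hoff k hk).2]; simp
  obtain ⟨T₁, hT₁, hT₁n⟩ := exists_dg b t₁ 1 zero_le_one ht₁
  choose T₀ hT₀ hT₀n using fun n => exists_dg b (t₀ n) 1 zero_le_one (ht₀ n)
  -- the differences vanish off `Sy N e n`
  have hdiff : ∀ n k, k ∉ Sy N e n → t₁ k = t₀ n k := by
    intro n k hk
    by_cases hk' : ∃ q, e q = k
    · obtain ⟨⟨j, i⟩, rfl⟩ := hk'
      rw [ht₁e, ht₀e]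
      simp only [a₁, a₀]
      by_cases h1 : i < N j
      · rw [if_pos h1, if_pos h1, if_neg]
        intro h2
        apply hk
        unfold Sy
        rw [Finset.mem_map]
        exact ⟨⟨j, i⟩, by simp [h1, h2], rfl⟩
      · rw [if_neg h1, if_neg h1]
    · rw [(hoff k hk').1, (hoff k hk').2]
  have hon : ∀ n, ∀ j < n, ∀ i < N j, t₁ (e ⟨j, i⟩) = z j ∧ t₀ n (e ⟨j, i⟩) = w j := by
    intro n j hj i hi
    rw [ht₁e, ht₀e]
    simp only [a₁, a₀]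
    rw [if_pos hi, if_pos hi, if_pos hj]
    exact ⟨rfl, rfl⟩
  have hA : ∀ n, sN p (T₁ - T₀ n) =
      (∑ j ∈ Finset.range n, (N j : ℝ≥0∞) * ‖z j - w j‖ₑ ^ p) ^ (1 / p) := by
    intro n
    rw [sN_fin hp0 (Sy N e n) (hT₁.sub (hT₀ n)) (fun k hk => by rw [hdiff n k hk, sub_self])]
    congr 1
    exact sum_Sy p N e n (fun k => t₁ k - t₀ n k) (fun j => z j - w j) (fun j hj i hi => by
      obtain ⟨h1, h2⟩ := hon n j hj i hi
      simp only [h1, h2])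
  have hB : ∀ n, sN p (fc f T₁ - fc f (T₀ n)) =
      (∑ j ∈ Finset.range n, (N j : ℝ≥0∞) * ‖hx f (z j) - hx f (w j)‖ₑ ^ p) ^ (1 / p) := by
    intro n
    rw [sN_fin hp0 (Sy N e n) ((hT₁.fc hf ht₁).sub ((hT₀ n).fc hf (ht₀ n)))
      (fun k hk => by simp only [hdiff n k hk, sub_self])]
    congr 1
    exact sum_Sy p N e n (fun k => hx f (t₁ k) - hx f (t₀ n k))
      (fun j => hx f (z j) - hx f (w j)) (fun j hj i hi => by
      obtain ⟨h1, h2⟩ := hon n j hj i hi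
      simp only [h1, h2])
  refine ⟨ι, b, T₁, T₀, t₁, t₀, hT₁, hT₀, hT₁n, ?_, ?_, ?_, ?_, ?_⟩
  · intro n
    refine le_antisymm (hT₀n n) ?_
    have h1 : T₀ n (b (e ⟨0, N 0⟩)) = t₀ n (e ⟨0, N 0⟩) • b (e ⟨0, N 0⟩) := hT₀ n _
    rw [ht₀e] at h1
    simp only [a₀, lt_irrefl, if_false, one_smul] at h1
    have h2 := (T₀ n).le_opNorm (b (e ⟨0, N 0⟩))
    rw [h1, b.orthonormal.1, mul_one] at h2
    exact h2
  · intro n
    rw [hA n]
    have h1 : ∑ j ∈ Finset.range n, (N j : ℝ≥0∞) * ‖z j - w j‖ₑ ^ p ≤ ENNReal.ofReal 2 := by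
      simp only [term_eq p hp0]
      rw [← ENNReal.ofReal_sum_of_nonneg (fun j _ => by positivity)]
      apply ENNReal.ofReal_le_ofReal
      refine (Finset.sum_le_sum fun j _ => hδ j).trans ?_
      have h2 := (hasSum_geometric_of_lt_one (r := (1 / 2 : ℝ)) (by norm_num) (by norm_num))
      have h3 := sum_le_hasSum (Finset.range n) (fun j _ => by positivity) h2
      refine h3.trans (by norm_num)
    calc (∑ j ∈ Finset.range n, (N j : ℝ≥0∞) * ‖z j - w j‖ₑ ^ p) ^ (1 / p)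
        ≤ (ENNReal.ofReal 2) ^ (1 / p) := ENNReal.rpow_le_rpow h1 (by positivity)
      _ ≤ (ENNReal.ofReal 2) ^ (1 : ℝ) := by
          apply ENNReal.rpow_le_rpow_of_exponent_le
          · rw [← ENNReal.ofReal_one]; exact ENNReal.ofReal_le_ofReal (by norm_num)
          · rw [div_le_one hp0]; exact hp
      _ = 2 := by rw [ENNReal.rpow_one]; norm_num
  · intro n
    rw [hB n]
    refine ENNReal.rpow_ne_top_of_nonneg (by positivity) ?_
    rw [ENNReal.sum_ne_top]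
    intro j _
    rw [term_eq p hp0]
    exact ENNReal.ofReal_ne_top
  · intro m n hmn
    simp only [hB]
    refine ENNReal.rpow_le_rpow ?_ (by positivity)
    exact Finset.sum_le_sum_of_subset_of_nonneg (Finset.range_mono hmn) fun j _ _ => zero_le
  · simp only [hB]
    have h1 : Tendsto (fun n : ℕ => ∑ j ∈ Finset.range n,
        (N j : ℝ≥0∞) * ‖hx f (z j) - hx f (w j)‖ₑ ^ p) atTop (𝓝 ∞) := by
      refine tendsto_nhds_top_mono' ENNReal.tendsto_nat_nhds_top fun n => ?_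
      have h2 : (n : ℝ≥0∞) = ∑ j ∈ Finset.range n, (1 : ℝ≥0∞) := by simp
      rw [h2]
      refine Finset.sum_le_sum fun j _ => ?_
      rw [term_eq p hp0, ← ENNReal.ofReal_one]
      exact ENNReal.ofReal_le_ofReal (hg j)
    have h2 := (ENNReal.continuous_rpow_const (y := 1 / p)).tendsto ∞
    rw [ENNReal.top_rpow_of_pos (by positivity)] at h2
    exact h2.comp h1

end Pool.Agent.KS6_22.SC.SL
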