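import Mathlib
import Pool.Agent.KS6_22.SC.Adj

set_option autoImplicit false
set_option linter.unusedSectionVars false
open scoped ENNReal InnerProductSpace Topology
open Module ContinuousLinearMap Filter
open Pool.Agent.KS6_22.SC.Sch

namespace Pool.Agent.KS6_22.SC.SL

universe u
variable {H : Type u} [NormedAddCommGroup H] [InnerProductSpace ℂ H] [CompleteSpace H]

open Classical in
/-- The Schatten `p`-norm of a bounded operator `a`: `(trace (a† a)^(p/2))^(1/p)`, computed from the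
eigenvalues of `a† a`, when `a` is compact, and `∞` otherwise. -/
noncomputable def sN (p : ℝ) (a : H →L[ℂ] H) : ℝ≥0∞ :=
  if IsCompactOperator a then (trPow p a) ^ (1 / p) else ∞

theorem sN_of_compact {a : H →L[ℂ] H} (ha : IsCompactOperator a) (p : ℝ) :
    sN p a = (trPow p a) ^ (1 / p) := if_pos ha

theorem sN_of_not {a : H →L[ℂ] H} (ha : ¬ IsCompactOperator a) (p : ℝ) : sN p a = ∞ := if_neg ha

theorem sN_rpow {a : H →L[ℂ] H} (ha : IsCompactOperator a) {p : ℝ} (hp : 0 < p) :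
    (sN p a) ^ p = trPow p a := by
  rw [sN_of_compact ha, ← ENNReal.rpow_mul, one_div, inv_mul_cancel₀ hp.ne', ENNReal.rpow_one]

theorem sN_le_iff {a : H →L[ℂ] H} (ha : IsCompactOperator a) {p : ℝ} (hp : 0 < p) (C : ℝ≥0∞) :
    sN p a ≤ C ↔ trPow p a ≤ C ^ p := by
  rw [← sN_rpow ha hp, ENNReal.rpow_le_rpow_iff hp]

theorem sN_zero {p : ℝ} (hp : 0 < p) : sN p (0 : H →L[ℂ] H) = 0 := by
  rw [sN_of_compact isCompactOperator_zero, trPow_zero hp,
    ENNReal.zero_rpow_of_pos (by positivity)]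

theorem sN_add_le {p : ℝ} (hp : 1 ≤ p) (a c : H →L[ℂ] H) : sN p (a + c) ≤ sN p a + sN p c := by
  by_cases ha : IsCompactOperator a
  · by_cases hc : IsCompactOperator c
    · rw [sN_of_compact ha, sN_of_compact hc, sN_of_compact (a := a + c) (ha.add hc)]
      exact trPow_add_le ha hc hp
    · rw [sN_of_not hc]; simp
  · rw [sN_of_not ha]; simp

theorem sN_smul_le {p : ℝ} (hp : 0 < p) (z : ℂ) (a : H →L[ℂ] H) :
    sN p (z • a) ≤ ‖z‖ₑ * sN p a := by
  by_cases ha : IsCompactOperator a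
  · rw [sN_le_iff (a := z • a) (ha.smul z) hp, trPow_smul ha hp, ENNReal.mul_rpow_of_nonneg _ _ hp.le,
      sN_rpow ha hp]
  · by_cases hz : z = 0
    · subst hz
      simp [sN_zero hp]
    · rw [sN_of_not ha, ENNReal.mul_top (by simpa using hz)]
      exact le_top

theorem sN_neg {p : ℝ} (hp : 0 < p) (a : H →L[ℂ] H) : sN p (-a) ≤ sN p a := by
  have h := sN_smul_le hp (-1) a
  simpa using h

theorem sN_sub_le {p : ℝ} (hp : 1 ≤ p) (a c : H →L[ℂ] H) : sN p (a - c) ≤ sN p a + sN p c := by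
  rw [sub_eq_add_neg]
  exact (sN_add_le hp a (-c)).trans (by gcongr; exact sN_neg (by linarith) c)

theorem sN_sub_comm {p : ℝ} (hp : 0 < p) (a c : H →L[ℂ] H) : sN p (a - c) = sN p (c - a) := by
  apply le_antisymm
  · have := sN_neg hp (c - a)
    rwa [neg_sub] at this
  · have := sN_neg hp (a - c)
    rwa [neg_sub] at this

theorem sN_adjoint {p : ℝ} (hp : 0 < p) (a : H →L[ℂ] H) : sN p (adjoint a) = sN p a := by
  by_cases ha : IsCompactOperator a
  · rw [sN_of_compact ha, sN_of_compact (compact_adjoint ha), trPow_adjoint a hp]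
  · have h : ¬ IsCompactOperator (adjoint a) := by
      intro h
      apply ha
      have := compact_adjoint h
      rwa [adjoint_adjoint] at this
    rw [sN_of_not ha, sN_of_not h]

/-- left multiplication -/
theorem trPow_comp_le {p : ℝ} (hp : 0 < p) (X : H →L[ℂ] H) {a : H →L[ℂ] H}
    (ha : IsCompactOperator a) : trPow p (X ∘L a) ≤ ‖X‖ₑ ^ p * trPow p a := by
  have hXa : IsCompactOperator (X ∘L a) := ha.clm_comp X
  have hle : ∀ x : H, ‖(X ∘L a) x‖ₑ ^ p ≤ ‖X‖ₑ ^ p * ‖a x‖ₑ ^ p := by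
    intro x
    rw [← ENNReal.mul_rpow_of_nonneg _ _ hp.le]
    gcongr
    exact X.le_opENorm (a x)
  rcases le_total p 2 with h2 | h2
  · obtain ⟨ι, b, hb⟩ := exists_singBasis a (compact_star_mul ha)
    refine (trPow_le_sum b (compact_star_mul hXa) hp h2).trans ?_
    rw [trPow_eq hb (compact_star_mul ha) hp, ← ENNReal.tsum_mul_left]
    exact ENNReal.tsum_le_tsum fun i => hle _
  · obtain ⟨ι, b, hb⟩ := exists_singBasis (X ∘L a) (compact_star_mul hXa)
    rw [trPow_eq hb (compact_star_mul hXa) hp]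
    refine (ENNReal.tsum_le_tsum fun i => hle _).trans ?_
    rw [ENNReal.tsum_mul_left]
    gcongr
    exact sum_le_trPow b.orthonormal (compact_star_mul ha) h2

theorem sN_comp_left {p : ℝ} (hp : 0 < p) (X a : H →L[ℂ] H) :
    sN p (X ∘L a) ≤ ‖X‖ₑ * sN p a := by
  by_cases ha : IsCompactOperator a
  · have hXa : IsCompactOperator (X ∘L a) := ha.clm_comp X
    rw [sN_le_iff hXa hp, ENNReal.mul_rpow_of_nonneg _ _ hp.le, sN_rpow ha hp]
    exact trPow_comp_le hp X ha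
  · by_cases hz : X = 0
    · subst hz
      simp [sN_zero hp]
    · rw [sN_of_not ha, ENNReal.mul_top (by simpa using hz)]
      exact le_top

theorem sN_comp_right {p : ℝ} (hp : 0 < p) (a X : H →L[ℂ] H) :
    sN p (a ∘L X) ≤ sN p a * ‖X‖ₑ := by
  have h := sN_comp_left hp (adjoint X) (adjoint a)
  rw [← adjoint_comp, sN_adjoint hp, sN_adjoint hp] at h
  have h2 : ‖adjoint X‖ₑ = ‖X‖ₑ := by
    rw [← ofReal_norm, ← ofReal_norm]
    congr 1
    exact LinearIsometryEquiv.norm_map adjoint X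
  rw [h2, mul_comm] at h
  exact h

/-- the Schatten norm is lower semicontinuous along norm limits -/
theorem sN_le_of_tendsto {α : Type*} {l : Filter α} [l.NeBot] {p : ℝ} (hp : 1 ≤ p)
    {Y : α → H →L[ℂ] H} {Z : H →L[ℂ] H} (hY : Tendsto Y l (𝓝 Z)) {C : ℝ≥0∞} (hC : C ≠ ∞)
    (hle : ∀ i, sN p (Y i) ≤ C) : sN p Z ≤ C := by
  have hp0 : 0 < p := by linarith
  have hcp : ∀ i, IsCompactOperator (Y i) := by
    intro i
    by_contra h
    have := hle i
    rw [sN_of_not h, top_le_iff] at this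
    exact hC this
  have hZ : IsCompactOperator Z :=
    isCompactOperator_of_tendsto hY (Eventually.of_forall hcp)
  rw [sN_le_iff hZ hp0]
  obtain ⟨ι, b, hb⟩ := exists_singBasis Z (compact_star_mul hZ)
  rw [biorth_eq hb (compact_star_mul hZ) hp0, ENNReal.tsum_eq_iSup_sum]
  apply iSup_le
  intro s
  have he : Orthonormal ℂ (fun k : {k // Z (b k) ≠ 0} => b k) :=
    b.orthonormal.comp _ Subtype.val_injective
  have hf := lsv_orthonormal hb
  have ht : Tendsto (fun i => ∑ k ∈ s, ‖⟪lsv b Z k, Y i (b k)⟫_ℂ‖ₑ ^ p) l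
      (𝓝 (∑ k ∈ s, ‖⟪lsv b Z k, Z (b k)⟫_ℂ‖ₑ ^ p)) := by
    apply tendsto_finsetSum
    intro k _
    have h1 : Tendsto (fun i => Y i (b k)) l (𝓝 (Z (b k))) := by
      have := ((ContinuousLinearMap.apply ℂ H (b (k : ι))).continuous.tendsto Z).comp hY
      exact this
    have h2 : Tendsto (fun i => ⟪lsv b Z k, Y i (b k)⟫_ℂ) l (𝓝 ⟪lsv b Z k, Z (b k)⟫_ℂ) :=
      Tendsto.inner tendsto_const_nhds h1
    have h3 := (ENNReal.continuous_rpow_const (y := p)).tendsto _ |>.comp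
      ((continuous_enorm.tendsto _).comp h2)
    exact h3
  refine le_of_tendsto' ht fun i => ?_
  calc ∑ k ∈ s, ‖⟪lsv b Z k, Y i (b k)⟫_ℂ‖ₑ ^ p
      ≤ ∑' k : {k // Z (b k) ≠ 0}, ‖⟪lsv b Z k, Y i (b k)⟫_ℂ‖ₑ ^ p := ENNReal.sum_le_tsum s
    _ ≤ trPow p (Y i) := biorth_le he hf (compact_star_mul (hcp i)) hp
    _ = (sN p (Y i)) ^ p := (sN_rpow (hcp i) hp0).symm
    _ ≤ C ^ p := by gcongr; exact hle i

/-- countable triangle inequality -/
theorem sN_hasSum_le {ι : Type*} {p : ℝ} (hp : 1 ≤ p) {X : ι → H →L[ℂ] H} {Z : H →L[ℂ] H}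
    (hX : HasSum X Z) {C : ℝ≥0∞} (hC : C ≠ ∞) (hle : ∑' i, sN p (X i) ≤ C) : sN p Z ≤ C := by
  refine sN_le_of_tendsto hp hX hC fun s => ?_
  refine le_trans ?_ ((ENNReal.sum_le_tsum s).trans hle)
  classical
  induction s using Finset.induction_on with
  | empty => simp [sN_zero (H := H) (show 0 < p by linarith)]
  | insert a s ha ih =>
    rw [Finset.sum_insert ha, Finset.sum_insert ha]
    exact (sN_add_le hp _ _).trans (by gcongr)

/-- powers of two contractions, one of norm at most `ρ < 1` -/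
theorem sN_pow_sub {p : ℝ} (hp : 1 ≤ p) {T S : H →L[ℂ] H} (hT : ‖T‖ ≤ 1) {ρ : NNReal}
    (hS : ‖S‖ ≤ ρ) (n : ℕ) :
    sN p (T ^ n - S ^ n) ≤ ((∑ l ∈ Finset.range n, ρ ^ l : NNReal) : ℝ≥0∞) * sN p (T - S) := by
  have hp0 : 0 < p := by linarith
  induction n with
  | zero => simp [sN_zero (H := H) hp0]
  | succ n ih =>
    have e : T ^ (n + 1) - S ^ (n + 1) = T ∘L (T ^ n - S ^ n) + (T - S) ∘L S ^ n := by
      change T ^ (n + 1) - S ^ (n + 1) = T * (T ^ n - S ^ n) + (T - S) * S ^ n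
      rw [pow_succ', pow_succ']
      noncomm_ring
    rw [e]
    refine (sN_add_le hp _ _).trans ?_
    have h1 : sN p (T ∘L (T ^ n - S ^ n)) ≤ sN p (T ^ n - S ^ n) := by
      refine (sN_comp_left hp0 _ _).trans ?_
      have : ‖T‖ₑ ≤ 1 := by
        rw [← ofReal_norm, ← ENNReal.ofReal_one]; exact ENNReal.ofReal_le_ofReal hT
      calc ‖T‖ₑ * sN p (T ^ n - S ^ n) ≤ 1 * sN p (T ^ n - S ^ n) := by gcongr
        _ = _ := one_mul _
    have h2 : sN p ((T - S) ∘L S ^ n) ≤ sN p (T - S) * ((ρ ^ n : NNReal) : ℝ≥0∞) := by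
      refine (sN_comp_right hp0 _ _).trans ?_
      gcongr
      rw [← ofReal_norm]
      have h3 : ‖S ^ n‖ ≤ (ρ : ℝ) ^ n := by
        rcases Nat.eq_zero_or_pos n with rfl | hn
        · rw [pow_zero, pow_zero]
          exact norm_id_le
        · exact (norm_pow_le' S hn).trans (pow_le_pow_left₀ (norm_nonneg _) hS n)
      calc ENNReal.ofReal ‖S ^ n‖ ≤ ENNReal.ofReal ((ρ : ℝ) ^ n) := ENNReal.ofReal_le_ofReal h3
        _ = ((ρ ^ n : NNReal) : ℝ≥0∞) := by
          rw [← NNReal.coe_pow, ENNReal.ofReal_coe_nnreal]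
    calc _ ≤ ((∑ l ∈ Finset.range n, ρ ^ l : NNReal) : ℝ≥0∞) * sN p (T - S)
          + sN p (T - S) * ((ρ ^ n : NNReal) : ℝ≥0∞) := add_le_add (h1.trans ih) h2
      _ = _ := by
        rw [Finset.sum_range_succ, ENNReal.coe_add]
        ring

theorem geom_le {ρ : NNReal} (hρ : ρ < 1) (n : ℕ) :
    (∑ l ∈ Finset.range n, ρ ^ l : NNReal) ≤ (1 - ρ)⁻¹ := by
  have h := (NNReal.hasSum_geometric hρ)
  rw [← h.tsum_eq]
  exact h.summable.sum_le_tsum _ (fun _ _ => zero_le)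

theorem sN_pow_sub' {p : ℝ} (hp : 1 ≤ p) {T S : H →L[ℂ] H} (hT : ‖T‖ ≤ 1) {ρ : NNReal}
    (hρ : ρ < 1) (hS : ‖S‖ ≤ ρ) (n : ℕ) :
    sN p (T ^ n - S ^ n) ≤ (((1 - ρ)⁻¹ : NNReal) : ℝ≥0∞) * sN p (T - S) := by
  refine (sN_pow_sub hp hT hS n).trans ?_
  gcongr
  exact geom_le hρ n

end Pool.Agent.KS6_22.SC.SL
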