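import Mathlib
import Pool.Agent.KS6_22.SC.Sch
import Pool.Agent.KS6_22.SC.Four

set_option autoImplicit false
set_option linter.unusedSectionVars false
open scoped ENNReal InnerProductSpace Topology Real NNReal
open Module ContinuousLinearMap Filter MeasureTheory
open Pool.Agent.KS6_22.SC.Sch

namespace Pool.Agent.KS6_22.SC.SL

universe u
variable {H : Type u} [NormedAddCommGroup H] [InnerProductSpace ℂ H] [CompleteSpace H]

/-- The `n`-th Fourier coefficient of a function on the unit circle. -/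
noncomputable def co (f : Circle → ℂ) (n : ℤ) : ℂ :=
  (2 * π : ℂ)⁻¹ * ∫ θ in (0 : ℝ)..(2 * π), f (Circle.exp θ) * Complex.exp (-(n * θ * Complex.I))

/-- `T ^ n` for `n ≥ 0` and `(T†) ^ |n|` for `n < 0`. -/
noncomputable def pw (T : H →L[ℂ] H) (n : ℤ) : H →L[ℂ] H :=
  if 0 ≤ n then T ^ n.toNat else (adjoint T) ^ (-n).toNat

/-- The functional calculus of a contraction `T`: `f(T) = ∑ f̂(n) T ^ n`, with
`T ^ (-n) = (T†) ^ n` (for Lipschitz `f` the Fourier series is absolutely convergent and the series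
of operators converges in norm). -/
noncomputable def fc (f : Circle → ℂ) (T : H →L[ℂ] H) : H →L[ℂ] H :=
  ∑' n : ℤ, co f n • pw T n

theorem lip_exp {f : Circle → ℂ} {K : ℝ≥0} (hf : LipschitzWith K f) (x y : ℝ) :
    ‖f (Circle.exp x) - f (Circle.exp y)‖ ≤ K * |x - y| := by
  have h1 := hf.dist_le_mul (Circle.exp x) (Circle.exp y)
  rw [dist_eq_norm] at h1
  refine h1.trans ?_
  gcongr
  have h2 : dist (Circle.exp x) (Circle.exp y)
      = ‖Complex.exp (x * Complex.I) - Complex.exp (y * Complex.I)‖ := by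
    change dist ((Circle.exp x : Circle) : ℂ) ((Circle.exp y : Circle) : ℂ) = _
    rw [dist_eq_norm, Circle.coe_exp, Circle.coe_exp]
  rw [h2]
  have h3 : Complex.exp (x * Complex.I) - Complex.exp (y * Complex.I)
      = Complex.exp (y * Complex.I) * (Complex.exp (Complex.I * ((x - y : ℝ) : ℂ)) - 1) := by
    rw [mul_sub, ← Complex.exp_add, mul_one]
    congr 2
    push_cast
    ring
  rw [h3, norm_mul, Complex.norm_exp_ofReal_mul_I, one_mul]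
  exact Real.norm_exp_I_mul_ofReal_sub_one_le

theorem summable_co {f : Circle → ℂ} {K : ℝ≥0} (hf : LipschitzWith K f) :
    Summable (fun n : ℤ => ‖co f n‖) := by
  refine summable_cF (G := fun θ => f (Circle.exp θ)) ?_ K.2 (lip_exp hf)
  intro θ
  simp only
  rw [Circle.periodic_exp θ]

theorem norm_pw_le {T : H →L[ℂ] H} (hT : ‖T‖ ≤ 1) (n : ℤ) : ‖pw T n‖ ≤ 1 := by
  have key : ∀ (S : H →L[ℂ] H), ‖S‖ ≤ 1 → ∀ m : ℕ, ‖S ^ m‖ ≤ 1 := by
    intro S hS m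
    rcases Nat.eq_zero_or_pos m with rfl | hm
    · rw [pow_zero]
      exact norm_id_le
    · exact (norm_pow_le' S hm).trans (pow_le_one₀ (norm_nonneg _) hS)
  unfold pw
  split_ifs
  · exact key _ hT _
  · refine key _ ?_ _
    rw [LinearIsometryEquiv.norm_map adjoint T]
    exact hT

theorem hasSum_fc {f : Circle → ℂ} {K : ℝ≥0} (hf : LipschitzWith K f) {T : H →L[ℂ] H}
    (hT : ‖T‖ ≤ 1) : HasSum (fun n : ℤ => co f n • pw T n) (fc f T) := by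
  refine Summable.hasSum (Summable.of_norm_bounded (summable_co hf) fun n => ?_)
  rw [norm_smul]
  calc ‖co f n‖ * ‖pw T n‖ ≤ ‖co f n‖ * 1 := by
        gcongr
        exact norm_pw_le hT n
    _ = _ := mul_one _

theorem pw_sub_le {p : ℝ} (hp : 1 ≤ p) {T S : H →L[ℂ] H} (hT : ‖T‖ ≤ 1) {ρ : ℝ≥0}
    (hρ : ρ < 1) (hS : ‖S‖ ≤ ρ) (n : ℤ) :
    sN p (pw T n - pw S n) ≤ (((1 - ρ)⁻¹ : ℝ≥0) : ℝ≥0∞) * sN p (T - S) := by
  unfold pw
  split_ifs
  · exact sN_pow_sub' hp hT hρ hS _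
  · have h1 : ‖adjoint T‖ ≤ 1 := by
      rw [LinearIsometryEquiv.norm_map adjoint T]; exact hT
    have h2 : ‖adjoint S‖ ≤ ρ := by
      rw [LinearIsometryEquiv.norm_map adjoint S]; exact hS
    have h3 := sN_pow_sub' hp h1 hρ h2 (-n).toNat
    rw [← map_sub adjoint T S, sN_adjoint (by linarith)] at h3
    exact h3

/-- the estimate when one of the two contractions is strict -/
theorem fc_sub_le {p : ℝ} (hp : 1 ≤ p) {f : Circle → ℂ} {K : ℝ≥0} (hf : LipschitzWith K f)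
    {T S : H →L[ℂ] H} (hT : ‖T‖ ≤ 1) {ρ : ℝ≥0} (hρ : ρ < 1) (hS : ‖S‖ ≤ ρ)
    (hfin : sN p (T - S) ≠ ∞) :
    sN p (fc f T - fc f S)
      ≤ (∑' n : ℤ, ‖co f n‖ₑ) * ((((1 - ρ)⁻¹ : ℝ≥0) : ℝ≥0∞) * sN p (T - S)) := by
  have hS1 : ‖S‖ ≤ 1 := hS.trans (by exact_mod_cast hρ.le)
  have h1 := (hasSum_fc hf hT).sub (hasSum_fc hf hS1)
  have hW : (∑' n : ℤ, ‖co f n‖ₑ) ≠ ∞ := by
    have := (summable_co hf).tsum_ofReal_ne_top
    simpa only [ofReal_norm] using this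
  refine sN_hasSum_le hp h1 ?_ ?_
  · exact ENNReal.mul_ne_top hW (ENNReal.mul_ne_top ENNReal.coe_ne_top hfin)
  · rw [← ENNReal.tsum_mul_right]
    refine ENNReal.tsum_le_tsum fun n => ?_
    rw [← smul_sub]
    refine (sN_smul_le (by linarith) _ _).trans ?_
    gcongr
    exact pw_sub_le hp hT hρ hS n

/-- the strict case of the question: the differences stay bounded -/
theorem strict_bounded {p : ℝ} (hp : 1 ≤ p) {f : Circle → ℂ} {K : ℝ≥0} (hf : LipschitzWith K f)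
    {T₁ : H →L[ℂ] H} (hT : ‖T₁‖ ≤ 1) {T₀ : ℕ → H →L[ℂ] H} (hT₀ : ∀ n, ‖T₀ n‖ ≤ 1) {M : ℝ≥0}
    (hM : ∀ n, sN p (T₁ - T₀ n) ≤ M) {m : ℕ} (hm : ‖T₀ m‖ < 1) :
    ∃ C : ℝ≥0, ∀ n, sN p (fc f T₁ - fc f (T₀ n)) ≤ C := by
  obtain ⟨ρ, hρ1, hρ⟩ : ∃ ρ : ℝ≥0, ρ < 1 ∧ ‖T₀ m‖ ≤ ρ := ⟨‖T₀ m‖₊, by exact_mod_cast hm, le_rfl⟩
  have hp0 : 0 < p := by linarith
  have hW : (∑' n : ℤ, ‖co f n‖ₑ) ≠ ∞ := by
    have := (summable_co hf).tsum_ofReal_ne_top
    simpa only [ofReal_norm] using this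
  set W := ∑' n : ℤ, ‖co f n‖ₑ with hWdef
  have hd : ∀ n, sN p (T₀ n - T₀ m) ≤ M + M := by
    intro n
    have e : T₀ n - T₀ m = (T₁ - T₀ m) - (T₁ - T₀ n) := by abel
    rw [e]
    exact (sN_sub_le hp _ _).trans (add_le_add (hM m) (hM n))
  set C : ℝ≥0∞ := W * ((((1 - ρ)⁻¹ : ℝ≥0) : ℝ≥0∞) * M)
    + W * ((((1 - ρ)⁻¹ : ℝ≥0) : ℝ≥0∞) * (M + M)) with hC
  have hCfin : C ≠ ∞ := by
    refine ENNReal.add_ne_top.2 ⟨?_, ?_⟩
    · exact ENNReal.mul_ne_top hW (ENNReal.mul_ne_top ENNReal.coe_ne_top ENNReal.coe_ne_top)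
    · exact ENNReal.mul_ne_top hW (ENNReal.mul_ne_top ENNReal.coe_ne_top
        (ENNReal.add_ne_top.2 ⟨ENNReal.coe_ne_top, ENNReal.coe_ne_top⟩))
  refine ⟨C.toNNReal, fun n => ?_⟩
  rw [ENNReal.coe_toNNReal hCfin]
  have e : fc f T₁ - fc f (T₀ n) = (fc f T₁ - fc f (T₀ m)) - (fc f (T₀ n) - fc f (T₀ m)) := by abel
  rw [e]
  refine (sN_sub_le hp _ _).trans (add_le_add ?_ ?_)
  · refine (fc_sub_le hp hf hT hρ1 hρ (ne_top_of_le_ne_top ENNReal.coe_ne_top (hM m))).trans ?_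
    gcongr
    exact hM m
  · refine (fc_sub_le hp hf (hT₀ n) hρ1 hρ (ne_top_of_le_ne_top
      (ENNReal.add_ne_top.2 ⟨ENNReal.coe_ne_top, ENNReal.coe_ne_top⟩) (hd n))).trans ?_
    gcongr
    exact hd n

end Pool.Agent.KS6_22.SC.SL
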