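import Pool.Agent.KS6_22.SC.Ana

set_option autoImplicit false
set_option linter.unusedSectionVars false
open scoped ENNReal InnerProductSpace Topology Real NNReal
open Module ContinuousLinearMap Filter MeasureTheory
open Pool.Agent.KS6_22.SC.Sch

namespace Pool.Agent.KS6_22.SC.SL

universe u
variable {H : Type u} [NormedAddCommGroup H] [InnerProductSpace ℂ H] [CompleteSpace H]

/-- for simultaneously diagonal contractions the Lipschitz constant of the harmonic extension
gives an estimate -/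
theorem diag_estimate {ι : Type*} {b : HilbertBasis ι ℂ H} {p : ℝ} (hp : 0 < p) {f : Circle → ℂ}
    {K : ℝ≥0} (hf : LipschitzWith K f) {C : ℝ}
    (hC : ∀ z w : ℂ, ‖z‖ ≤ 1 → ‖w‖ ≤ 1 → ‖hx f z - hx f w‖ ≤ C * ‖z - w‖)
    {T S : H →L[ℂ] H} {t s : ι → ℂ} (hT : Dg b T t) (hS : Dg b S s) (ht : ∀ k, ‖t k‖ ≤ 1)
    (hs : ∀ k, ‖s k‖ ≤ 1) : sN p (fc f T - fc f S) ≤ ENNReal.ofReal C * sN p (T - S) := by
  have hC0 : 0 ≤ C := by
    have := hC 1 0 (by simp) (by simp)
    simp only [sub_zero, norm_one, mul_one] at this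
    exact (norm_nonneg _).trans this
  obtain ⟨X, hX, hXn⟩ := exists_dg b (fun k => (hx f (t k) - hx f (s k)) / (t k - s k)) C hC0
    (fun k => by
      rw [norm_div]
      by_cases h : t k - s k = 0
      · rw [h, norm_zero, div_zero]; exact hC0
      · rw [div_le_iff₀ (norm_pos_iff.2 h)]
        exact hC _ _ (ht k) (hs k))
  have e : fc f T - fc f S = X ∘L (T - S) := by
    apply clm_ext_basis b
    intro k
    have h1 := ((hT.fc hf ht).sub (hS.fc hf hs)) k
    have h2 := (hT.sub hS) k
    rw [h1]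
    change _ = X ((T - S) (b k))
    rw [h2, map_smul, hX k, smul_smul]
    congr 1
    beta_reduce
    by_cases h : t k - s k = 0
    · rw [h, sub_eq_zero.1 h, sub_self, zero_mul]
    · rw [mul_div_cancel₀ _ h]
  rw [e]
  refine (sN_comp_left hp X _).trans ?_
  gcongr
  rw [← ofReal_norm]
  exact ENNReal.ofReal_le_ofReal hXn

/-- the entries of a diagonal contraction -/
theorem Dg.entry_le {ι : Type*} {b : HilbertBasis ι ℂ H} {T : H →L[ℂ] H} {t : ι → ℂ}
    (hT : Dg b T t) (hn : ‖T‖ ≤ 1) (k : ι) : ‖t k‖ ≤ 1 := by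
  have h1 := T.le_opNorm (b k)
  rw [hT k, norm_smul, b.orthonormal.1 k, mul_one, mul_one] at h1
  exact h1.trans hn

/-- The sum of a power series. -/
noncomputable def pser (a : ℕ → ℂ) (z : ℂ) : ℂ := ∑' n : ℕ, a n * z ^ n

/-- The sum of a power series at an operator. -/
noncomputable def opser (a : ℕ → ℂ) (T : H →L[ℂ] H) : H →L[ℂ] H := ∑' n : ℕ, a n • T ^ n

/-- The coefficients with index `n ≥ 0`. -/
noncomputable def cpos (f : Circle → ℂ) (n : ℕ) : ℂ := co f n

/-- The conjugates of the coefficients with index `-n < 0`. -/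
noncomputable def cneg (f : Circle → ℂ) (n : ℕ) : ℂ :=
  if n = 0 then 0 else (starRingEnd ℂ) (co f (-(n : ℤ)))

theorem summable_cpos {f : Circle → ℂ} {K : ℝ≥0} (hf : LipschitzWith K f) :
    Summable (fun n => ‖cpos f n‖) :=
  (summable_co hf).comp_injective Nat.cast_injective

theorem summable_cneg {f : Circle → ℂ} {K : ℝ≥0} (hf : LipschitzWith K f) :
    Summable (fun n => ‖cneg f n‖) := by
  have h1 : Summable (fun n : ℕ => ‖co f (-(n : ℤ))‖) :=
    (summable_co hf).comp_injective (i := fun n : ℕ => (-(n : ℤ)))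
      (fun a b h => by simpa using h)
  refine Summable.of_nonneg_of_le (fun _ => norm_nonneg _) (fun n => ?_) h1
  unfold cneg
  split_ifs
  · rw [norm_zero]; exact norm_nonneg _
  · rw [RCLike.norm_conj]

theorem hasSum_pser {a : ℕ → ℂ} (ha : Summable (fun n => ‖a n‖)) {z : ℂ} (hz : ‖z‖ ≤ 1) :
    HasSum (fun n => a n * z ^ n) (pser a z) := by
  refine Summable.hasSum (Summable.of_norm_bounded ha fun n => ?_)
  rw [norm_mul, norm_pow]
  exact mul_le_of_le_one_right (norm_nonneg _) (pow_le_one₀ (norm_nonneg _) hz)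

theorem hasSum_opser {a : ℕ → ℂ} (ha : Summable (fun n => ‖a n‖)) {T : H →L[ℂ] H}
    (hT : ‖T‖ ≤ 1) : HasSum (fun n => a n • T ^ n) (opser a T) := by
  refine Summable.hasSum (Summable.of_norm_bounded ha fun n => ?_)
  rw [norm_smul]
  refine mul_le_of_le_one_right (norm_nonneg _) ?_
  have := norm_pw_le hT (n : ℤ)
  unfold pw at this
  rwa [if_pos (Int.natCast_nonneg n), Int.toNat_natCast] at this

theorem hx_split {f : Circle → ℂ} {K : ℝ≥0} (hf : LipschitzWith K f) {z : ℂ} (hz : ‖z‖ ≤ 1) :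
    hx f z = pser (cpos f) z + (starRingEnd ℂ) (pser (cneg f) z) := by
  have h1 := hasSum_pser (summable_cpos hf) hz
  have h2 := hasSum_pser (summable_cneg hf) hz
  have h3 : HasSum (fun n : ℕ => cneg f (n + 1) * z ^ (n + 1)) (pser (cneg f) z) := by
    have := (hasSum_nat_add_iff' (f := fun n => cneg f n * z ^ n) 1).2 h2
    simpa [cneg] using this
  have h4 : HasSum (fun n : ℕ => (starRingEnd ℂ) (cneg f (n + 1) * z ^ (n + 1)))
      ((starRingEnd ℂ) (pser (cneg f) z)) := h3.map (starRingEnd ℂ) Complex.continuous_conj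
  have e1 : (fun n : ℕ => cpos f n * z ^ n) = fun n : ℕ => co f (n : ℤ) * pz z (n : ℤ) := by
    funext n
    rw [pz, if_pos (Int.natCast_nonneg n), Int.toNat_natCast]
    rfl
  have e2 : (fun n : ℕ => (starRingEnd ℂ) (cneg f (n + 1) * z ^ (n + 1))) =
      fun n : ℕ => co f (-((n : ℤ) + 1)) * pz z (-((n : ℤ) + 1)) := by
    funext n
    rw [pz, if_neg (by omega)]
    have h5 : (- -((n : ℤ) + 1)).toNat = n + 1 := by omega
    rw [h5, map_mul, map_pow, cneg, if_neg (Nat.succ_ne_zero n), Complex.conj_conj]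
    push_cast
    rfl
  rw [e1] at h1
  rw [e2] at h4
  exact (hasSum_hx hf hz).unique (HasSum.of_nat_of_neg_add_one h1 h4)

theorem fc_split {f : Circle → ℂ} {K : ℝ≥0} (hf : LipschitzWith K f) {T : H →L[ℂ] H}
    (hT : ‖T‖ ≤ 1) : fc f T = opser (cpos f) T + adjoint (opser (cneg f) T) := by
  have h1 := hasSum_opser (summable_cpos hf) hT
  have h2 := hasSum_opser (summable_cneg hf) hT
  have h3 : HasSum (fun n : ℕ => cneg f (n + 1) • T ^ (n + 1)) (opser (cneg f) T) := by
    have := (hasSum_nat_add_iff' (f := fun n => cneg f n • T ^ n) 1).2 h2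
    simpa [cneg] using this
  have h4 : HasSum (fun n : ℕ => adjoint (cneg f (n + 1) • T ^ (n + 1)))
      (adjoint (opser (cneg f) T)) :=
    h3.map (adjoint : (H →L[ℂ] H) ≃ₗᵢ⋆[ℂ] (H →L[ℂ] H)) (LinearIsometryEquiv.continuous _)
  have e1 : (fun n : ℕ => cpos f n • T ^ n) = fun n : ℕ => co f (n : ℤ) • pw T (n : ℤ) := by
    funext n
    rw [pw, if_pos (Int.natCast_nonneg n), Int.toNat_natCast]
    rfl
  have hadj : ∀ n : ℕ, adjoint (T ^ n) = (adjoint T) ^ n := by
    intro n
    rw [← star_eq_adjoint, ← star_eq_adjoint, star_pow]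
  have e2 : (fun n : ℕ => adjoint (cneg f (n + 1) • T ^ (n + 1))) =
      fun n : ℕ => co f (-((n : ℤ) + 1)) • pw T (-((n : ℤ) + 1)) := by
    funext n
    rw [pw, if_neg (by omega)]
    have h5 : (- -((n : ℤ) + 1)).toNat = n + 1 := by omega
    rw [h5, LinearIsometryEquiv.map_smulₛₗ, hadj, cneg, if_neg (Nat.succ_ne_zero n),
      Complex.conj_conj]
    push_cast
    rfl
  rw [e1] at h1
  rw [e2] at h4
  exact (hasSum_fc hf hT).unique (HasSum.of_nat_of_neg_add_one h1 h4)

theorem continuousOn_pser {a : ℕ → ℂ} (ha : Summable (fun n => ‖a n‖)) :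
    ContinuousOn (pser a) (Metric.closedBall 0 1) := by
  refine continuousOn_tsum (u := fun n : ℕ => ‖a n‖) (fun n => ?_) ha ?_
  · exact (continuous_const.mul (continuous_pow n)).continuousOn
  · intro n z hz
    rw [Metric.mem_closedBall, dist_zero_right] at hz
    rw [norm_mul, norm_pow]
    exact mul_le_of_le_one_right (norm_nonneg _) (pow_le_one₀ (norm_nonneg _) hz)

theorem differentiableOn_pser {a : ℕ → ℂ} (ha : Summable (fun n => ‖a n‖)) :
    DifferentiableOn ℂ (pser a) (Metric.ball 0 1) := by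
  refine Complex.differentiableOn_tsum_of_summable_norm ha (fun n => ?_) Metric.isOpen_ball ?_
  · fun_prop
  · intro n z hz
    rw [Metric.mem_ball, dist_zero_right] at hz
    rw [norm_mul, norm_pow]
    exact mul_le_of_le_one_right (norm_nonneg _) (pow_le_one₀ (norm_nonneg _) hz.le)

/-- the harmonic extension is Lipschitz iff both parts are -/
theorem lip_parts {f : Circle → ℂ} {K : ℝ≥0} (hf : LipschitzWith K f) :
    LipDisc (hx f) ↔ LipDisc (pser (cpos f)) ∧ LipDisc (pser (cneg f)) := by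
  constructor
  · rintro ⟨C, hC⟩
    have hC0 : 0 ≤ C := by
      have := hC 1 0 (by simp) (by simp)
      simp only [sub_zero, norm_one, mul_one] at this
      exact (norm_nonneg _).trans this
    have ha := summable_cpos hf
    have hb := summable_cneg hf
    have hda := differentiableOn_pser ha
    have hdb := differentiableOn_pser hb
    have key : ∀ z ∈ Metric.ball (0 : ℂ) 1, ‖deriv (pser (cpos f)) z‖ ≤ C ∧
        ‖deriv (pser (cneg f)) z‖ ≤ C := by
      intro z hz
      have hza := (hda.differentiableAt (Metric.isOpen_ball.mem_nhds hz)).hasDerivAt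
      have hzb := (hdb.differentiableAt (Metric.isOpen_ball.mem_nhds hz)).hasDerivAt
      set α := deriv (pser (cpos f)) z
      set β := deriv (pser (cneg f)) z
      have hv : ∀ v : ℂ, ‖v‖ = 1 → ‖α * v + (starRingEnd ℂ) (β * v)‖ ≤ C := by
        intro v hv
        have hc : HasDerivAt (fun s : ℝ => z + (s : ℂ) * v) v 0 := by
          have h1 : HasDerivAt (fun s : ℝ => (s : ℂ) * v) (1 * v) 0 :=
            (Complex.ofRealCLM.hasDerivAt (x := (0 : ℝ))).mul_const _
          rw [one_mul] at h1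
          exact h1.const_add z
        have hA : HasDerivAt (fun s : ℝ => pser (cpos f) (z + (s : ℂ) * v)) (α * v) 0 := by
          have h3 : HasDerivAt (pser (cpos f)) α (z + ((0 : ℝ) : ℂ) * v) := by simpa using hza
          exact HasDerivAt.comp (𝕜' := ℂ) (0 : ℝ) h3 hc
        have hB : HasDerivAt (fun s : ℝ => pser (cneg f) (z + (s : ℂ) * v)) (β * v) 0 := by
          have h3 : HasDerivAt (pser (cneg f)) β (z + ((0 : ℝ) : ℂ) * v) := by simpa using hzb
          exact HasDerivAt.comp (𝕜' := ℂ) (0 : ℝ) h3 hc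
        have hB' : HasDerivAt (fun s : ℝ => (starRingEnd ℂ) (pser (cneg f) (z + (s : ℂ) * v)))
            ((starRingEnd ℂ) (β * v)) 0 :=
          (Complex.conjCLE : ℂ →L[ℝ] ℂ).hasFDerivAt.comp_hasDerivAt (0 : ℝ) hB
        have hAB := hA.add hB'
        refine hAB.le_of_lip' hC0 ?_
        have hnhds : ∀ᶠ s : ℝ in 𝓝 0, z + (s : ℂ) * v ∈ Metric.ball (0 : ℂ) 1 := by
          have hcont : ContinuousAt (fun s : ℝ => z + (s : ℂ) * v) 0 := hc.continuousAt
          apply hcont
          simpa using Metric.isOpen_ball.mem_nhds hz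
        filter_upwards [hnhds] with s hs
        have hz1 : ‖z‖ ≤ 1 := by
          rw [Metric.mem_ball, dist_zero_right] at hz; exact hz.le
        have hs1 : ‖z + (s : ℂ) * v‖ ≤ 1 := by
          rw [Metric.mem_ball, dist_zero_right] at hs; exact hs.le
        have h5 := hC _ _ hs1 hz1
        rw [hx_split hf hs1, hx_split hf hz1, add_sub_cancel_left, norm_mul, hv, mul_one,
          Complex.norm_real] at h5
        simpa using h5
      have h1 := hv 1 (by simp)
      have h2 := hv Complex.I (by simp)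
      have h3 : ‖α - (starRingEnd ℂ) β‖ ≤ C := by
        have e : α * Complex.I + (starRingEnd ℂ) (β * Complex.I) =
            Complex.I * (α - (starRingEnd ℂ) β) := by
          rw [map_mul, Complex.conj_I]; ring
        rw [e, norm_mul, Complex.norm_I, one_mul] at h2
        exact h2
      rw [mul_one, mul_one] at h1
      have h4 : ‖(2 : ℂ) * α‖ ≤ C + C := by
        have e : (2 : ℂ) * α = (α + (starRingEnd ℂ) β) + (α - (starRingEnd ℂ) β) := by ring
        rw [e]
        exact (norm_add_le _ _).trans (add_le_add h1 h3)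
      have h5 : ‖(2 : ℂ) * (starRingEnd ℂ) β‖ ≤ C + C := by
        have e : (2 : ℂ) * (starRingEnd ℂ) β =
          (α + (starRingEnd ℂ) β) - (α - (starRingEnd ℂ) β) := by ring
        rw [e]
        exact (norm_sub_le _ _).trans (add_le_add h1 h3)
      rw [norm_mul, Complex.norm_two] at h4 h5
      rw [RCLike.norm_conj] at h5
      exact ⟨by linarith, by linarith⟩
    exact ⟨⟨C, lip_of_deriv (continuousOn_pser ha) hda hC0 fun z hz => (key z hz).1⟩,
      ⟨C, lip_of_deriv (continuousOn_pser hb) hdb hC0 fun z hz => (key z hz).2⟩⟩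
  · rintro ⟨⟨A, hA⟩, ⟨B, hB⟩⟩
    refine ⟨A + B, fun z w hz hw => ?_⟩
    rw [hx_split hf hz, hx_split hf hw]
    have e : pser (cpos f) z + (starRingEnd ℂ) (pser (cneg f) z) -
        (pser (cpos f) w + (starRingEnd ℂ) (pser (cneg f) w)) =
        (pser (cpos f) z - pser (cpos f) w) +
          (starRingEnd ℂ) (pser (cneg f) z - pser (cneg f) w) := by
      rw [map_sub]; ring
    rw [e, add_mul]
    refine (norm_add_le _ _).trans (add_le_add (hA z w hz hw) ?_)
    rw [RCLike.norm_conj]
    exact hB z w hz hw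

/-- The published estimate for analytic functions: for a power series with absolutely summable
coefficients which is Lipschitz on the closed disc. -/
def AnalyticEstimate (p : ℝ) (H : Type u) [NormedAddCommGroup H] [InnerProductSpace ℂ H]
    [CompleteSpace H] : Prop :=
  ∀ a : ℕ → ℂ, Summable (fun n => ‖a n‖) → LipDisc (pser a) →
    ∃ C : ℝ≥0, ∀ T S : H →L[ℂ] H, ‖T‖ ≤ 1 → ‖S‖ ≤ 1 → sN p (T - S) ≠ ∞ →
      sN p (opser a T - opser a S) ≤ C * sN p (T - S)

theorem estimate_of_analytic {p : ℝ} (hp : 1 ≤ p) (hE : AnalyticEstimate p H) {f : Circle → ℂ}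
    {K : ℝ≥0} (hf : LipschitzWith K f) (hL : LipDisc (hx f)) :
    ∃ C : ℝ≥0, ∀ T S : H →L[ℂ] H, ‖T‖ ≤ 1 → ‖S‖ ≤ 1 → sN p (T - S) ≠ ∞ →
      sN p (fc f T - fc f S) ≤ C * sN p (T - S) := by
  obtain ⟨h1, h2⟩ := (lip_parts hf).1 hL
  obtain ⟨A, hA⟩ := hE _ (summable_cpos hf) h1
  obtain ⟨B, hB⟩ := hE _ (summable_cneg hf) h2
  refine ⟨A + B, fun T S hT hS hfin => ?_⟩
  rw [fc_split hf hT, fc_split hf hS]
  have e : opser (cpos f) T + adjoint (opser (cneg f) T) -
      (opser (cpos f) S + adjoint (opser (cneg f) S)) =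
      (opser (cpos f) T - opser (cpos f) S) + adjoint (opser (cneg f) T - opser (cneg f) S) := by
    rw [map_sub]; abel
  rw [e, ENNReal.coe_add, add_mul]
  refine (sN_add_le hp _ _).trans (add_le_add (hA T S hT hS hfin) ?_)
  rw [sN_adjoint (by linarith)]
  exact hB T S hT hS hfin

end Pool.Agent.KS6_22.SC.SL
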