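import Pool.Agent.KS6_22.SC.Calc

set_option autoImplicit false
set_option linter.unusedSectionVars false
open scoped ENNReal InnerProductSpace Topology Real NNReal
open Module ContinuousLinearMap Filter MeasureTheory
open Pool.Agent.KS6_22.SC.Sch

namespace Pool.Agent.KS6_22.SC.SL

universe u
variable {H : Type u} [NormedAddCommGroup H] [InnerProductSpace ℂ H] [CompleteSpace H]
variable {ι : Type*} {b : HilbertBasis ι ℂ H}

/-- the rank one projection onto a basis vector -/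
noncomputable def pj (b : HilbertBasis ι ℂ H) (k : ι) : H →L[ℂ] H :=
  (innerSL ℂ (b k)).smulRight (b k)

theorem pj_apply (k : ι) (x : H) : pj b k x = ⟪b k, x⟫_ℂ • b k := rfl

theorem pj_compact (k : ι) : IsCompactOperator (pj b k) := by
  have h1 : IsCompactOperator (innerSL ℂ (b k)) :=
    isCompactOperator_of_locallyCompactSpace_dom (innerSL ℂ (b k))
  exact h1.clm_comp ((ContinuousLinearMap.id ℂ ℂ).smulRight (b k) : ℂ →L[ℂ] H)

theorem pj_basis [DecidableEq ι] (k j : ι) :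
    pj b k (b j) = (if j = k then (1 : ℂ) else 0) • b j := by
  rw [pj_apply]
  by_cases h : j = k
  · subst h
    rw [if_pos rfl, inner_self_eq_norm_sq_to_K, b.orthonormal.1]
    simp
  · rw [if_neg h, b.orthonormal.2 (Ne.symm h), zero_smul, zero_smul]

/-- `T` is diagonal in the basis `b` with entries `t` -/
def Dg (b : HilbertBasis ι ℂ H) (T : H →L[ℂ] H) (t : ι → ℂ) : Prop := ∀ k, T (b k) = t k • b k

theorem Dg.adj {T : H →L[ℂ] H} {t : ι → ℂ} (hT : Dg b T t) :
    Dg b (adjoint T) (fun k => (starRingEnd ℂ) (t k)) := by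
  intro j
  apply ext_basis b
  intro k
  rw [adjoint_inner_right, hT k, inner_smul_left, inner_smul_right]
  by_cases hkj : k = j
  · rw [hkj]
  · rw [b.orthonormal.2 hkj, mul_zero, mul_zero]

theorem Dg.sing {T : H →L[ℂ] H} {t : ι → ℂ} (hT : Dg b T t) : SingBasis b T := by
  intro j
  rw [hT j, map_smul, hT.adj j, smul_smul, norm_smul, b.orthonormal.1 j, mul_one, Complex.mul_conj']
  push_cast
  rfl

theorem Dg.pow {T : H →L[ℂ] H} {t : ι → ℂ} (hT : Dg b T t) (n : ℕ) :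
    Dg b (T ^ n) (fun k => t k ^ n) := by
  induction n with
  | zero => intro k; simp
  | succ n ih =>
    intro k
    rw [pow_succ']
    change T ((T ^ n) (b k)) = _
    rw [ih k, map_smul, hT k, smul_smul]
    change (t k ^ n * t k) • b k = (t k ^ (n + 1)) • b k
    rw [pow_succ]

theorem Dg.norm_le {T : H →L[ℂ] H} {t : ι → ℂ} (hT : Dg b T t) (ht : ∀ k, ‖t k‖ ≤ 1) :
    ‖T‖ ≤ 1 := by
  refine T.opNorm_le_bound zero_le_one fun x => ?_
  rw [one_mul]
  have h1 := sing_parseval hT.sing x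
  have h2 := Pool.Agent.KS6_22.SC.Sch.parseval b x
  have h3 : ‖T x‖ₑ ^ 2 ≤ ‖x‖ₑ ^ 2 := by
    rw [← h1, ← h2]
    refine ENNReal.tsum_le_tsum fun i => ?_
    have h4 : ‖T (b i)‖ₑ ≤ 1 := by
      rw [hT i, ← ofReal_norm, ← ENNReal.ofReal_one]
      apply ENNReal.ofReal_le_ofReal
      rw [norm_smul, b.orthonormal.1 i, mul_one]
      exact ht i
    calc ‖⟪b i, x⟫_ℂ‖ₑ ^ 2 * ‖T (b i)‖ₑ ^ 2 ≤ ‖⟪b i, x⟫_ℂ‖ₑ ^ 2 * 1 ^ 2 := by gcongr
      _ = _ := by simp
  have h5 : ‖T x‖ₑ ≤ ‖x‖ₑ := (ENNReal.pow_le_pow_left_iff two_ne_zero).1 h3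
  rw [← ofReal_norm, ← ofReal_norm] at h5
  exact (ENNReal.ofReal_le_ofReal_iff (norm_nonneg _)).1 h5


/-- `z ^ n` for `n ≥ 0` and `conj z ^ |n|` for `n < 0`. -/
noncomputable def pz (z : ℂ) (n : ℤ) : ℂ :=
  if 0 ≤ n then z ^ n.toNat else ((starRingEnd ℂ) z) ^ (-n).toNat

/-- The harmonic extension of a function on the unit circle, as a series. -/
noncomputable def hx (f : Circle → ℂ) (z : ℂ) : ℂ := ∑' n : ℤ, co f n * pz z n

theorem norm_pz_le {z : ℂ} (hz : ‖z‖ ≤ 1) (n : ℤ) : ‖pz z n‖ ≤ 1 := by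
  unfold pz
  split_ifs
  · rw [norm_pow]; exact pow_le_one₀ (norm_nonneg _) hz
  · rw [norm_pow, RCLike.norm_conj]; exact pow_le_one₀ (norm_nonneg _) hz

theorem hasSum_hx {f : Circle → ℂ} {K : ℝ≥0} (hf : LipschitzWith K f) {z : ℂ} (hz : ‖z‖ ≤ 1) :
    HasSum (fun n : ℤ => co f n * pz z n) (hx f z) := by
  refine Summable.hasSum (Summable.of_norm_bounded (summable_co hf) fun n => ?_)
  rw [norm_mul]
  calc ‖co f n‖ * ‖pz z n‖ ≤ ‖co f n‖ * 1 := by
        gcongr
        exact norm_pz_le hz n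
    _ = _ := mul_one _

theorem norm_hx_le {f : Circle → ℂ} {K : ℝ≥0} (hf : LipschitzWith K f) {z : ℂ} (hz : ‖z‖ ≤ 1) :
    ‖hx f z‖ ≤ ∑' n : ℤ, ‖co f n‖ := by
  refine (norm_tsum_le_tsum_norm ?_).trans (Summable.tsum_le_tsum (fun n => ?_) ?_ (summable_co hf))
  · refine Summable.of_nonneg_of_le (fun n => norm_nonneg _) (fun n => ?_) (summable_co hf)
    rw [norm_mul]
    exact mul_le_of_le_one_right (norm_nonneg _) (norm_pz_le hz n)
  · rw [norm_mul]
    exact mul_le_of_le_one_right (norm_nonneg _) (norm_pz_le hz n)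
  · refine Summable.of_nonneg_of_le (fun n => norm_nonneg _) (fun n => ?_) (summable_co hf)
    rw [norm_mul]
    exact mul_le_of_le_one_right (norm_nonneg _) (norm_pz_le hz n)

theorem Dg.pw {T : H →L[ℂ] H} {t : ι → ℂ} (hT : Dg b T t) (n : ℤ) :
    Dg b (pw T n) (fun k => pz (t k) n) := by
  unfold Pool.Agent.KS6_22.SC.SL.pw pz
  split_ifs with h
  · exact hT.pow _
  · exact Dg.pow hT.adj _

theorem Dg.fc {f : Circle → ℂ} {K : ℝ≥0} (hf : LipschitzWith K f) {T : H →L[ℂ] H} {t : ι → ℂ}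
    (hT : Dg b T t) (ht : ∀ k, ‖t k‖ ≤ 1) : Dg b (fc f T) (fun k => hx f (t k)) := by
  intro k
  have hn : ‖T‖ ≤ 1 := hT.norm_le ht
  have h1 := hasSum_fc hf hn
  have h2 : HasSum (fun n : ℤ => (co f n • Pool.Agent.KS6_22.SC.SL.pw T n) (b k))
      (Pool.Agent.KS6_22.SC.SL.fc f T (b k)) :=
    h1.mapL (ContinuousLinearMap.apply ℂ H (b k))
  have h3 : ∀ n : ℤ, (co f n • Pool.Agent.KS6_22.SC.SL.pw T n) (b k) =
      (co f n * pz (t k) n) • b k := by
    intro n
    rw [smul_apply, hT.pw n k, smul_smul]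
  simp only [h3] at h2
  exact h2.unique ((hasSum_hx hf (ht k)).smul_const (b k))

/-- diagonal operators exist -/
theorem exists_dg (b : HilbertBasis ι ℂ H) (t : ι → ℂ) (C : ℝ) (hC : 0 ≤ C)
    (ht : ∀ k, ‖t k‖ ≤ C) : ∃ T : H →L[ℂ] H, Dg b T t ∧ ‖T‖ ≤ C := by
  classical
  have hmem : ∀ x : lp (fun _ : ι => ℂ) 2, Memℓp (fun k => t k * x k) 2 := by
    intro x
    refine memℓp_gen ?_
    have hs := (lp.memℓp x).summable (by simp)
    refine Summable.of_nonneg_of_le (fun k => by positivity) (fun k => ?_)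
      (hs.mul_left (C ^ (2 : ENNReal).toReal))
    rw [norm_mul, Real.mul_rpow (norm_nonneg _) (norm_nonneg _)]
    gcongr
    exact ht k
  let L : lp (fun _ : ι => ℂ) 2 →ₗ[ℂ] lp (fun _ : ι => ℂ) 2 :=
    { toFun := fun x => ⟨fun k => t k * x k, hmem x⟩
      map_add' := fun x y => by
        apply lp.ext
        funext k
        change t k * (x k + y k) = t k * x k + t k * y k
        ring
      map_smul' := fun c x => by
        apply lp.ext
        funext k
        change t k * (c * x k) = c * (t k * x k)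
        ring }
  have hL : ∀ x, ‖L x‖ ≤ C * ‖x‖ := by
    intro x
    refine lp.norm_le_of_forall_sum_le (by simp) (by positivity) fun s => ?_
    have h1 : ∀ k ∈ s, ‖(L x) k‖ ^ (2 : ENNReal).toReal ≤
        C ^ (2 : ENNReal).toReal * ‖x k‖ ^ (2 : ENNReal).toReal := by
      intro k _
      change ‖t k * x k‖ ^ _ ≤ _
      rw [norm_mul, Real.mul_rpow (norm_nonneg _) (norm_nonneg _)]
      gcongr
      exact ht k
    refine (Finset.sum_le_sum h1).trans ?_
    rw [← Finset.mul_sum, Real.mul_rpow hC (norm_nonneg _)]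
    gcongr
    exact lp.sum_rpow_le_norm_rpow (by simp) x s
  let D : lp (fun _ : ι => ℂ) 2 →L[ℂ] lp (fun _ : ι => ℂ) 2 := L.mkContinuous C hL
  let T : H →L[ℂ] H := (b.repr.symm.toContinuousLinearEquiv : _ →L[ℂ] H) ∘L D ∘L
    (b.repr.toContinuousLinearEquiv : H →L[ℂ] _)
  have hTx : ∀ x, T x = b.repr.symm (L (b.repr x)) := fun x => rfl
  refine ⟨T, ?_, ?_⟩
  · intro k
    rw [hTx, b.repr_self, ← b.repr_symm_single, ← map_smul]
    congr 1
    apply lp.ext
    funext j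
    change t j * (lp.single 2 k (1 : ℂ) : lp (fun _ : ι => ℂ) 2) j =
      t k * (lp.single 2 k (1 : ℂ) : lp (fun _ : ι => ℂ) 2) j
    by_cases h : j = k
    · subst h; rfl
    · rw [lp.single_apply_ne _ _ _ h, mul_zero, mul_zero]
  · refine T.opNorm_le_bound hC fun x => ?_
    rw [hTx, LinearIsometryEquiv.norm_map]
    refine (hL _).trans ?_
    rw [LinearIsometryEquiv.norm_map]

theorem Dg.eq_sum {a : H →L[ℂ] H} {d : ι → ℂ} (S : Finset ι) (ha : Dg b a d)
    (hd : ∀ k, k ∉ S → d k = 0) : a = ∑ k ∈ S, d k • pj b k := by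
  classical
  apply clm_ext_basis b
  intro j
  rw [ha j, sum_apply]
  simp only [smul_apply, pj_basis, smul_smul]
  rw [← Finset.sum_smul]
  congr 1
  by_cases hj : j ∈ S
  · rw [Finset.sum_eq_single_of_mem j hj]
    · simp
    · intro k _ hk
      rw [if_neg (Ne.symm hk), mul_zero]
  · rw [hd j hj, Finset.sum_eq_zero]
    intro k hk
    have : j ≠ k := fun h => hj (h ▸ hk)
    rw [if_neg this, mul_zero]

theorem Dg.compact {a : H →L[ℂ] H} {d : ι → ℂ} (S : Finset ι) (ha : Dg b a d)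
    (hd : ∀ k, k ∉ S → d k = 0) : IsCompactOperator a := by
  rw [ha.eq_sum S hd]
  have : ∀ S : Finset ι, IsCompactOperator (∑ k ∈ S, d k • pj b k : H →L[ℂ] H) := by
    classical
    intro S
    induction S using Finset.induction_on with
    | empty => simpa using isCompactOperator_zero
    | insert k S hk ih =>
      rw [Finset.sum_insert hk]
      exact ((pj_compact k).smul (d k)).add ih
  exact this S

theorem sN_fin {p : ℝ} (hp : 0 < p) {a : H →L[ℂ] H} {d : ι → ℂ} (S : Finset ι) (ha : Dg b a d)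
    (hd : ∀ k, k ∉ S → d k = 0) : sN p a = (∑ k ∈ S, ‖d k‖ₑ ^ p) ^ (1 / p) := by
  have hc := ha.compact S hd
  rw [sN_of_compact hc, trPow_eq ha.sing (compact_star_mul hc) hp]
  congr 1
  have h1 : ∀ k, ‖a (b k)‖ₑ ^ p = ‖d k‖ₑ ^ p := by
    intro k
    rw [ha k, enorm_smul, enorm_eq_one b.orthonormal, mul_one]
  simp only [h1]
  apply tsum_eq_sum
  intro k hk
  rw [hd k hk, enorm_zero, ENNReal.zero_rpow_of_pos hp]

theorem Dg.sub {a c : H →L[ℂ] H} {s t : ι → ℂ} (ha : Dg b a s) (hc : Dg b c t) :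
    Dg b (a - c) (fun k => s k - t k) := by
  intro k
  rw [sub_apply, ha k, hc k, sub_smul]

end Pool.Agent.KS6_22.SC.SL
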