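import Mathlib
import Pool.Agent.KS6_22.SC.Conv

set_option autoImplicit false
set_option linter.unusedSectionVars false
open scoped ENNReal InnerProductSpace Topology Real NNReal
open Module ContinuousLinearMap Filter MeasureTheory
open Pool.Agent.KS6_22.SC.Sch

namespace Pool.Agent.KS6_22.SC.SL

/-- the function `z ↦ |1 - z|` -/
noncomputable def fE (z : Circle) : ℂ := ((‖(1 : ℂ) - z‖ : ℝ) : ℂ)

theorem fE_lip : LipschitzWith 1 fE := by
  refine LipschitzWith.of_dist_le_mul fun z w => ?_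
  rw [NNReal.coe_one, one_mul, dist_eq_norm]
  unfold fE
  rw [← Complex.ofReal_sub, Complex.norm_real, Real.norm_eq_abs]
  refine (abs_norm_sub_norm_le _ _).trans ?_
  rw [sub_sub_sub_cancel_left, ← dist_eq_norm, dist_comm]
  exact le_rfl

theorem fE_exp {θ : ℝ} (h0 : 0 ≤ θ) (h1 : θ ≤ 2 * π) :
    fE (Circle.exp θ) = ((2 * Real.sin (θ / 2) : ℝ) : ℂ) := by
  unfold fE
  congr 1
  have hs : 0 ≤ Real.sin (θ / 2) := Real.sin_nonneg_of_nonneg_of_le_pi (by linarith) (by linarith)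
  have e : (1 : ℂ) - (Circle.exp θ : ℂ) = -(Complex.exp (Complex.I * θ) - 1) := by
    rw [Circle.coe_exp, mul_comm Complex.I]
    ring
  rw [e, norm_neg, Complex.norm_exp_I_mul_ofReal_sub_one, norm_mul, Real.norm_eq_abs,
    Real.norm_eq_abs, abs_two, abs_of_nonneg hs]

theorem int_half_ne (n : ℤ) : (1 / 2 : ℂ) + n ≠ 0 := by
  intro h
  have h2 : ((1 + 2 * n : ℤ) : ℂ) = 0 := by push_cast; linear_combination 2 * h
  have h3 : (1 + 2 * n : ℤ) = 0 := by exact_mod_cast h2
  omega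

theorem co_fE (n : ℤ) : co fE n = ((4 / (π * (1 - 4 * (n : ℝ) ^ 2)) : ℝ) : ℂ) := by
  have hI : Complex.I ≠ 0 := Complex.I_ne_zero
  have hpi : (π : ℂ) ≠ 0 := by exact_mod_cast Real.pi_ne_zero
  have hp := int_half_ne n
  have hm : (1 / 2 : ℂ) - n ≠ 0 := by
    have := int_half_ne (-n)
    push_cast at this
    rwa [← sub_eq_add_neg] at this
  set a : ℂ := -(Complex.I * (1 / 2 + n)) with ha
  set b : ℂ := Complex.I * (1 / 2 - n) with hb
  have ha0 : a ≠ 0 := by rw [ha]; exact neg_ne_zero.2 (mul_ne_zero hI hp)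
  have hb0 : b ≠ 0 := by rw [hb]; exact mul_ne_zero hI hm
  have h1 : ∫ θ in (0 : ℝ)..(2 * π), fE (Circle.exp θ) * Complex.exp (-(n * θ * Complex.I))
      = ∫ θ in (0 : ℝ)..(2 * π), (Complex.I * Complex.exp (a * θ) - Complex.I * Complex.exp (b * θ)) := by
    refine intervalIntegral.integral_congr fun θ hθ => ?_
    rw [Set.uIcc_of_le Real.two_pi_pos.le] at hθ
    rw [fE_exp hθ.1 hθ.2]
    push_cast
    rw [Complex.sin]
    have e1 : Complex.exp (a * θ) = Complex.exp (-((θ : ℂ) / 2) * Complex.I)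
        * Complex.exp (-(n * θ * Complex.I)) := by
      rw [← Complex.exp_add]
      congr 1
      rw [ha]
      ring
    have e2 : Complex.exp (b * θ) = Complex.exp (((θ : ℂ) / 2) * Complex.I)
        * Complex.exp (-(n * θ * Complex.I)) := by
      rw [← Complex.exp_add]
      congr 1
      rw [hb]
      ring
    rw [e1, e2]
    ring
  unfold co
  rw [h1, intervalIntegral.integral_sub, intervalIntegral.integral_const_mul,
    intervalIntegral.integral_const_mul, integral_exp_mul_complex ha0, integral_exp_mul_complex hb0]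
  · have ea : Complex.exp (a * ((2 * π : ℝ) : ℂ)) = -1 := by
      have : a * ((2 * π : ℝ) : ℂ) = -(π * Complex.I) + (-n : ℤ) * (2 * π * Complex.I) := by
        rw [ha]; push_cast; ring
      rw [this, Complex.exp_add, Complex.exp_int_mul_two_pi_mul_I, mul_one, Complex.exp_neg,
        Complex.exp_pi_mul_I]
      norm_num
    have eb : Complex.exp (b * ((2 * π : ℝ) : ℂ)) = -1 := by
      have : b * ((2 * π : ℝ) : ℂ) = (π * Complex.I) + (-n : ℤ) * (2 * π * Complex.I) := by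
        rw [hb]; push_cast; ring
      rw [this, Complex.exp_add, Complex.exp_int_mul_two_pi_mul_I, mul_one, Complex.exp_pi_mul_I]
    rw [ea, eb]
    simp only [Complex.ofReal_zero, mul_zero, Complex.exp_zero]
    rw [ha, hb]
    have h4 : (1 : ℂ) - 4 * (n : ℂ) ^ 2 ≠ 0 := by
      have : (1 : ℂ) - 4 * (n : ℂ) ^ 2 = 4 * ((1 / 2 + n) * (1 / 2 - n)) := by ring
      rw [this]
      exact mul_ne_zero (by norm_num) (mul_ne_zero hp hm)
    push_cast
    have hp' : (1 : ℂ) + 2 * n ≠ 0 := by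
      intro h; apply hp; linear_combination h / 2
    have hm' : (1 : ℂ) - 2 * n ≠ 0 := by
      intro h; apply hm; linear_combination h / 2
    have f1 : Complex.I * ((-1 - 1) / -(Complex.I * (1 / 2 + (n : ℂ)))) = 4 / (1 + 2 * n) := by
      have : (1 / 2 + (n : ℂ)) = (1 + 2 * n) / 2 := by ring
      rw [this]
      field_simp
      ring
    have f2 : Complex.I * ((-1 - 1) / (Complex.I * (1 / 2 - (n : ℂ)))) = -4 / (1 - 2 * n) := by
      have : (1 / 2 - (n : ℂ)) = (1 - 2 * n) / 2 := by ring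
      rw [this]
      field_simp
      ring
    have f3 : (1 : ℂ) - 4 * (n : ℂ) ^ 2 = (1 + 2 * n) * (1 - 2 * n) := by ring
    rw [f1, f2, f3]
    field_simp
    ring
  · exact (Continuous.intervalIntegrable (by fun_prop) _ _)
  · exact (Continuous.intervalIntegrable (by fun_prop) _ _)

/-- the real coefficients -/
noncomputable def cr (n : ℤ) : ℝ := 4 / (π * (1 - 4 * (n : ℝ) ^ 2))

theorem cr_summable : Summable cr := by
  have h := summable_co fE_lip
  simp only [co_fE, Complex.norm_real] at h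
  exact h.of_norm

/-- the values of the functional calculus at real scalars -/
noncomputable def v (r : ℝ) : ℝ := ∑' n : ℤ, cr n * r ^ n.natAbs

theorem v_summable {r : ℝ} (h0 : 0 ≤ r) (h1 : r ≤ 1) : Summable (fun n : ℤ => cr n * r ^ n.natAbs) := by
  refine Summable.of_norm_bounded cr_summable.norm fun n => ?_
  rw [norm_mul, norm_pow, Real.norm_of_nonneg h0]
  calc ‖cr n‖ * r ^ n.natAbs ≤ ‖cr n‖ * 1 := by
        gcongr
        exact pow_le_one₀ h0 h1
    _ = _ := mul_one _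

theorem cr_nonpos {n : ℤ} (hn : n ≠ 0) : cr n ≤ 0 := by
  unfold cr
  apply div_nonpos_of_nonneg_of_nonpos (by norm_num)
  have h1 : (1 : ℝ) ≤ (n : ℝ) ^ 2 := by
    have : (1 : ℤ) ≤ n ^ 2 := by
      have := sq_nonneg n
      have h : n ^ 2 ≠ 0 := pow_ne_zero 2 hn
      omega
    exact_mod_cast this
  have := Real.pi_pos
  nlinarith

theorem pow_gap {δ : ℝ} (h0 : 0 ≤ δ) (h1 : δ ≤ 1) (k : ℕ) (hk : k * δ ≤ 1) :
    k * δ / 2 ≤ 1 - (1 - δ) ^ k := by
  have h2 : 1 + k * δ ≤ (1 + δ) ^ k := one_add_mul_le_pow (by linarith) k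
  have h3 : (1 - δ) ^ k * (1 + δ) ^ k ≤ 1 := by
    rw [← mul_pow]
    apply pow_le_one₀
    · nlinarith
    · nlinarith
  have h4 : 0 ≤ (1 - δ) ^ k := pow_nonneg (by linarith) k
  have h5 : (1 - δ) ^ k * (1 + k * δ) ≤ 1 := (mul_le_mul_of_nonneg_left h2 h4).trans h3
  have h6 : 0 ≤ k * δ := by positivity
  nlinarith

theorem harm_lower (m : ℕ) : (m : ℝ) / 2 ≤ ∑ n ∈ Finset.range (2 ^ m), 1 / ((n : ℝ) + 1) := by
  induction m with
  | zero => simp
  | succ m ih =>
    rw [pow_succ, mul_two, Finset.sum_range_add]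
    have h1 : (1 : ℝ) / 2 ≤ ∑ n ∈ Finset.range (2 ^ m), 1 / (((2 ^ m + n : ℕ) : ℝ) + 1) := by
      calc (1 : ℝ) / 2 = ∑ n ∈ Finset.range (2 ^ m), 1 / ((2 : ℝ) ^ m * 2) := by
            rw [Finset.sum_const, Finset.card_range, nsmul_eq_mul]
            push_cast
            field_simp
        _ ≤ _ := by
            refine Finset.sum_le_sum fun n hn => ?_
            have hn' : n + 1 ≤ 2 ^ m := Finset.mem_range.1 hn
            have hn2 : (n : ℝ) + 1 ≤ 2 ^ m := by exact_mod_cast hn'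
            apply one_div_le_one_div_of_le
            · positivity
            · push_cast
              linarith
    push_cast
    push_cast at h1
    linarith

theorem v_gap (m : ℕ) (δ : ℝ) (hδ : δ = (1 / 2) ^ m) :
    δ * m / (4 * π) ≤ |v 1 - v (1 - δ)| := by
  have hδ0 : 0 < δ := by rw [hδ]; positivity
  have hδ1 : δ ≤ 1 := by rw [hδ]; exact pow_le_one₀ (by norm_num) (by norm_num)
  have hpi := Real.pi_pos
  have h1 := (v_summable zero_le_one le_rfl).hasSum
  have h2 := (v_summable (r := 1 - δ) (by linarith) (by linarith)).hasSum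
  have h3 := (h2.sub h1)
  have h4 : ∀ n : ℤ, 0 ≤ cr n * (1 - δ) ^ n.natAbs - cr n * 1 ^ n.natAbs := by
    intro n
    by_cases hn : n = 0
    · subst hn; simp
    · rw [one_pow, ← mul_sub]
      apply mul_nonneg_of_nonpos_of_nonpos (cr_nonpos hn)
      have : (1 - δ) ^ n.natAbs ≤ 1 := pow_le_one₀ (by linarith) (by linarith)
      linarith
  let s : Finset ℤ := (Finset.range (2 ^ m)).map ⟨fun n : ℕ => ((n : ℤ) + 1), fun a b h => by
    simpa using h⟩
  have h5 := sum_le_hasSum s (fun n _ => h4 n) h3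
  rw [Finset.sum_map] at h5
  have h6 : ∀ n ∈ Finset.range (2 ^ m), δ / (2 * π) * (1 / ((n : ℝ) + 1))
      ≤ cr ((n : ℤ) + 1) * (1 - δ) ^ ((n : ℤ) + 1).natAbs - cr ((n : ℤ) + 1) * 1 ^ ((n : ℤ) + 1).natAbs := by
    intro n hn
    have hn' : n + 1 ≤ 2 ^ m := Finset.mem_range.1 hn
    have e1 : ((n : ℤ) + 1).natAbs = n + 1 := by
      have : ((n : ℤ) + 1) = ((n + 1 : ℕ) : ℤ) := by push_cast; ring
      rw [this, Int.natAbs_natCast]
    rw [e1, one_pow, ← mul_sub]
    have hk : ((n + 1 : ℕ) : ℝ) * δ ≤ 1 := by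
      rw [hδ]
      have : ((n + 1 : ℕ) : ℝ) ≤ 2 ^ m := by exact_mod_cast hn'
      calc ((n + 1 : ℕ) : ℝ) * (1 / 2) ^ m ≤ 2 ^ m * (1 / 2) ^ m := by gcongr
        _ = 1 := by rw [← mul_pow]; norm_num
    have hg := pow_gap hδ0.le hδ1 (n + 1) hk
    have hx : 0 < (n : ℝ) + 1 := by positivity
    have hc : -cr ((n : ℤ) + 1) = 4 / (π * (4 * ((n : ℝ) + 1) ^ 2 - 1)) := by
      unfold cr
      push_cast
      have hne : (1 : ℝ) - 4 * ((n : ℝ) + 1) ^ 2 ≠ 0 := by nlinarith
      have hne2 : 4 * ((n : ℝ) + 1) ^ 2 - 1 ≠ 0 := by nlinarith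
      rw [← div_neg, neg_mul_eq_mul_neg, neg_sub]
    have hc2 : 1 / (π * ((n : ℝ) + 1) ^ 2) ≤ -cr ((n : ℤ) + 1) := by
      rw [hc, div_le_div_iff₀ (by positivity) (by apply mul_pos hpi; nlinarith)]
      nlinarith
    have hg0 : 0 ≤ ((n + 1 : ℕ) : ℝ) * δ / 2 := by positivity
    calc δ / (2 * π) * (1 / ((n : ℝ) + 1))
        = 1 / (π * ((n : ℝ) + 1) ^ 2) * (((n + 1 : ℕ) : ℝ) * δ / 2) := by
          push_cast
          field_simp
      _ ≤ (-cr ((n : ℤ) + 1)) * (1 - (1 - δ) ^ (n + 1)) := by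
          apply mul_le_mul hc2 hg hg0
          have : 0 ≤ 1 / (π * ((n : ℝ) + 1) ^ 2) := by positivity
          linarith
      _ = _ := by ring
  have h7 : δ / (2 * π) * ((m : ℝ) / 2) ≤ v (1 - δ) - v 1 := by
    calc δ / (2 * π) * ((m : ℝ) / 2)
        ≤ δ / (2 * π) * ∑ n ∈ Finset.range (2 ^ m), 1 / ((n : ℝ) + 1) := by
          gcongr
          exact harm_lower m
      _ = ∑ n ∈ Finset.range (2 ^ m), δ / (2 * π) * (1 / ((n : ℝ) + 1)) := by rw [Finset.mul_sum]
      _ ≤ _ := (Finset.sum_le_sum h6).trans h5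
  rw [abs_sub_comm]
  calc δ * m / (4 * π) = δ / (2 * π) * ((m : ℝ) / 2) := by field_simp; norm_num
    _ ≤ _ := h7
    _ ≤ _ := le_abs_self _

theorem hx_fE {r : ℝ} (h0 : 0 ≤ r) (h1 : r ≤ 1) : hx fE (r : ℂ) = ((v r : ℝ) : ℂ) := by
  have h2 := (v_summable h0 h1).hasSum
  have h3 := Complex.hasSum_ofReal.2 h2
  have h4 : HasSum (fun n : ℤ => co fE n * pz (r : ℂ) n) ((v r : ℝ) : ℂ) := by
    have e : (fun n : ℤ => co fE n * pz (r : ℂ) n) =
        fun n : ℤ => ((cr n * r ^ n.natAbs : ℝ) : ℂ) := by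
      funext n
      rw [co_fE]
      have e2 : pz (r : ℂ) n = ((r ^ n.natAbs : ℝ) : ℂ) := by
        unfold pz
        split_ifs with h
        · have : n.toNat = n.natAbs := by omega
          rw [this]; push_cast; rfl
        · have : (-n).toNat = n.natAbs := by omega
          rw [this, Complex.conj_ofReal]; push_cast; rfl
      rw [e2, cr, Complex.ofReal_mul]
    rw [e]
    exact h3
  exact h4.tsum_eq

/-- the harmonic extension of `|1 - z|` is not Lipschitz -/
theorem not_lip_fE : ¬ LipDisc (hx fE) := by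
  rintro ⟨C, hC⟩
  obtain ⟨m, hm⟩ := exists_nat_gt (C * (4 * π))
  have hpi := Real.pi_pos
  have hδ0 : (0 : ℝ) < (1 / 2) ^ m := by positivity
  have hδ1 : ((1 : ℝ) / 2) ^ m ≤ 1 := pow_le_one₀ (by norm_num) (by norm_num)
  have h1 := v_gap m ((1 / 2) ^ m) rfl
  have h2 := hC ((1 : ℝ) : ℂ) ((1 - (1 / 2) ^ m : ℝ) : ℂ) (by simp) (by
    rw [Complex.norm_real, Real.norm_of_nonneg (by linarith)]; linarith)
  rw [hx_fE zero_le_one le_rfl, hx_fE (by linarith) (by linarith), ← Complex.ofReal_sub,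
    ← Complex.ofReal_sub, Complex.norm_real, Complex.norm_real, Real.norm_eq_abs,
    Real.norm_eq_abs, sub_sub_cancel, abs_of_pos hδ0] at h2
  have h3 := h1.trans h2
  rw [div_le_iff₀ (by positivity)] at h3
  have h4 : (m : ℝ) ≤ C * (4 * π) := by
    have h5 : (1 / 2 : ℝ) ^ m * m ≤ (1 / 2) ^ m * (C * (4 * π)) := by linarith
    exact le_of_mul_le_mul_left h5 hδ0
  linarith

end Pool.Agent.KS6_22.SC.SL
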